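import Pool.Agent.Work.MP_2695c4_gt.Hedge.Defs
import Pool.Agent.Work.MP_2695c4_gt.Rounding

-- merged part: Pool.Agent.Work.MP_2695c4_gt.Hedge.Basic
section
/-!
Partitions of finite subsets into pieces of bounded radius with few cut pairs.
-/

namespace Pool.Agent.Work.MP_2695c4_gt.Hedge

open Finset
open scoped Classical

variable {Y : Type} [MetricSpace Y] {R ε S : ℝ}

/-- Total weight of the close pairs of `F` that `π` separates. -/
noncomputable def cut (R : ℝ) (F : Finset Y) (π : Y → Y) (c : Y → Y → ℝ) : ℝ :=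
  ∑ x ∈ F, ∑ y ∈ F, if dist x y ≤ R ∧ π x ≠ π y then c x y else 0

/-- Number of close pairs between two sets. -/
noncomputable def bd (R : ℝ) (E E' : Finset Y) : ℝ :=
  ∑ x ∈ E, ∑ y ∈ E', if dist x y ≤ R then 1 else 0

/-- Uniform hyperfiniteness of the finite subsets of `A`. -/
def HF (R ε S : ℝ) (A : Set Y) : Prop :=
  ∀ F : Finset Y, ↑F ⊆ A → ∃ π : Y → Y, (∀ x ∈ F, dist x (π x) ≤ S) ∧
    cut R F π (fun _ _ => 1) ≤ ε * F.card

lemma ball_bound (hY : UnifLocFinite Y) (r : ℝ) : ∃ (N : ℕ) (B : Y → Finset Y), 0 < N ∧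
    (∀ x y, y ∈ B x ↔ dist x y ≤ r) ∧ ∀ x, (B x).card ≤ N := by
  obtain ⟨N, hN⟩ := hY (max r 1) (by positivity)
  have h : ∀ x : Y, (Metric.closedBall x r).encard ≤ N := fun x =>
    (Set.encard_le_encard (Metric.closedBall_subset_closedBall (le_max_left _ _))).trans (hN x)
  refine ⟨N + 1, fun x => (Set.finite_of_encard_le_coe (h x)).toFinset, N.succ_pos,
    fun x y => by simp [dist_comm], fun x => Nat.le_succ_of_le ?_⟩
  have := h x
  rwa [(Set.finite_of_encard_le_coe (h x)).encard_eq_coe_toFinset_card, Nat.cast_le] at this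

lemma deg_bound (hY : UnifLocFinite Y) (r : ℝ) : ∃ N : ℝ, 1 ≤ N ∧ ∀ (x : Y) (F : Finset Y),
    ∑ y ∈ F, (if dist x y ≤ r then (1 : ℝ) else 0) ≤ N := by
  obtain ⟨N, B, h0, h1, h2⟩ := ball_bound hY r
  refine ⟨N, Nat.one_le_cast.2 h0, fun x F => ?_⟩
  rw [sum_boole, Nat.cast_le]
  exact (card_le_card fun y hy => (h1 x y).2 (mem_filter.1 hy).2).trans (h2 x)

lemma comp_rep (hR : 0 ≤ R) (F : Finset Y) : ∃ π : Y → Y,
    (∀ x ∈ F, dist x (π x) ≤ (2 ^ F.card - 1) * R) ∧
      ∀ x ∈ F, ∀ y ∈ F, dist x y ≤ R → π x = π y := by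
  induction F using Finset.induction_on with
  | empty => exact ⟨id, by simp, by simp⟩
  | insert a F ha ih =>
    obtain ⟨π, h1, h2⟩ := ih
    have h0 : 0 ≤ (2 ^ F.card - 1) * R := mul_nonneg (sub_nonneg.2 (one_le_pow₀ one_le_two)) hR
    refine ⟨fun x => if x = a ∨ ∃ y ∈ F, dist y a ≤ R ∧ π y = π x then a else π x,
      fun x hx => ?_, fun x hx y hy h => ?_⟩
    · rw [card_insert_of_notMem ha, pow_succ]
      rcases mem_insert.1 hx with rfl | hx'
      · simp only [true_or, if_true, dist_self]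
        linarith
      · have := h1 x hx'
        beta_reduce
        split_ifs with h
        · obtain rfl | ⟨y, hy, h3, h4⟩ := h
          · exact absurd hx' ha
          · linarith [dist_triangle4 x (π x) y a, h4 ▸ h1 y hy, dist_comm y (π x)]
        · linarith
    · rcases mem_insert.1 hx with rfl | hx' <;> rcases mem_insert.1 hy with rfl | hy'
      · rfl
      · simp only [true_or, if_true]
        rw [if_pos (Or.inr ⟨y, hy', dist_comm x y ▸ h, rfl⟩)]
      · simp only [true_or, if_true]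
        rw [if_pos (Or.inr ⟨x, hx', h, rfl⟩)]
      · simp only [h2 x hx' y hy' h, ne_of_mem_of_not_mem hx' ha, ne_of_mem_of_not_mem hy' ha]

lemma ite_and_le (p q : Prop) [Decidable p] [Decidable (p ∧ q)] :
    (if p ∧ q then (1 : ℝ) else 0) ≤ if p then 1 else 0 := by
  by_cases hp : p <;> by_cases hq : q <;> simp [hp, hq]

lemma cut_split {F E : Finset Y} (hE : E ⊆ F) (π : Y → Y) (x0 : Y) :
    cut R F (fun x => if x ∈ E then x0 else π x) (fun _ _ => 1) ≤
      cut R (F \ E) π (fun _ _ => 1) + 2 * bd R E (F \ E) := by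
  have h : ∀ (f : Y → Y → ℝ), ∑ x ∈ F, ∑ y ∈ F, f x y = ∑ x ∈ F \ E, ∑ y ∈ F \ E, f x y +
      ∑ y ∈ E, ∑ x ∈ F \ E, f x y + (∑ x ∈ E, ∑ y ∈ F \ E, f x y + ∑ x ∈ E, ∑ y ∈ E, f x y) := by
    intro f
    rw [sum_comm (s := E) (t := F \ E), ← sum_add_distrib, ← sum_add_distrib, ← sum_sdiff hE]
    simp only [sum_sdiff hE]
  rw [cut, h, two_mul, ← add_assoc (cut ..)]
  refine add_le_add (add_le_add (sum_congr rfl fun x hx => sum_congr rfl fun y hy => ?_).le
    (sum_le_sum fun x _ => sum_le_sum fun y _ => ?_))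
    ((add_le_add (sum_le_sum fun x _ => sum_le_sum fun y _ => ?_) (sum_eq_zero fun x hx =>
      sum_eq_zero fun y hy => ?_).le).trans_eq (add_zero _))
  · simp only [(mem_sdiff.1 hx).2, (mem_sdiff.1 hy).2, if_false]
  · rw [dist_comm y x]
    exact ite_and_le _ _
  · exact ite_and_le _ _
  · simp [hx, hy]

lemma greedy {A : Set Y} (h : ∀ F : Finset Y, ↑F ⊆ A → F.Nonempty → ∃ x0, ∃ E ⊆ F, E.Nonempty ∧
    (∀ x ∈ E, dist x x0 ≤ S) ∧ 2 * bd R E (F \ E) ≤ ε * E.card) : HF R ε S A := by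
  intro F
  induction F using Finset.strongInduction with
  | H F ih =>
    intro hF
    rcases F.eq_empty_or_nonempty with rfl | hne
    · exact ⟨id, by simp, by simp [cut]⟩
    obtain ⟨x0, E, h1, h2, h3, h4⟩ := h F hF hne
    obtain ⟨π, h5, h6⟩ := ih (F \ E) (sdiff_ssubset h1 h2) ((coe_subset.2 sdiff_subset).trans hF)
    refine ⟨_, fun x hx => ?_, (cut_split h1 π x0).trans ?_⟩
    · split_ifs with hx'
      · exact h3 x hx'
      · exact h5 x (mem_sdiff.2 ⟨hx, hx'⟩)
    · rw [← card_sdiff_add_card_eq_card h1, Nat.cast_add]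
      linarith

lemma hf_compl (hY : UnifLocFinite Y) (hR : 0 ≤ R) (hε : 0 < ε) {U : Finset Y}
    (h : HF R ε S (↑U : Set Y)ᶜ) : ∃ S', HF R (2 * ε) S' (Set.univ : Set Y) := by
  rcases isEmpty_or_nonempty Y with _ | ⟨⟨x0⟩⟩
  · exact ⟨0, fun F _ => ⟨id, fun x => isEmptyElim x, by simp [cut, Subsingleton.elim F ∅]⟩⟩
  obtain ⟨N, -, hN⟩ := deg_bound hY R
  obtain ⟨C, hC⟩ := exists_nat_ge (2 * (U.card * N) / ε)
  obtain ⟨r, hr⟩ := U.finite_toSet.isBounded.subset_closedBall x0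
  refine ⟨max (max S r) (2 ^ C * R), fun F _ => ?_⟩
  rcases le_total F.card C with h1 | h1
  · obtain ⟨π, h2, h3⟩ := comp_rep hR F
    refine ⟨π, fun x hx => (h2 x hx).trans (le_max_of_le_right (mul_le_mul_of_nonneg_right
      ((sub_le_self _ zero_le_one).trans (pow_le_pow_right₀ one_le_two h1)) hR)),
      (sum_eq_zero fun x hx => sum_eq_zero fun y hy => if_neg fun e => e.2 (h3 x hx y hy e.1)).trans_le
        (by positivity)⟩
  · obtain ⟨π, h2, h3⟩ := h (F \ (F ∩ U)) fun x hx => by simp at hx ⊢; tauto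
    refine ⟨_, fun x hx => le_max_of_le_left ?_, 
      (cut_split (E := F ∩ U) inter_subset_left π x0).trans ?_⟩
    · split_ifs with hx'
      · exact le_max_of_le_right (hr (mem_inter.1 hx').2)
      · exact le_max_of_le_left (h2 x (mem_sdiff.2 ⟨hx, hx'⟩))
    · have e1 : bd R (F ∩ U) (F \ (F ∩ U)) ≤ U.card * N :=
        (sum_le_sum_of_subset_of_nonneg inter_subset_right fun _ _ _ => by positivity).trans
          ((sum_le_card_nsmul _ _ N fun x _ => hN x _).trans_eq (nsmul_eq_mul _ _))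
      have e2 := mul_le_mul_of_nonneg_left (Nat.cast_le (α := ℝ).2
        (card_le_card (sdiff_subset (s := F) (t := F ∩ U)))) hε.le
      have e3 := (div_le_iff₀' hε).1 (hC.trans (Nat.cast_le.2 h1))
      linarith

end Pool.Agent.Work.MP_2695c4_gt.Hedge
end

-- merged part: Pool.Agent.Work.MP_2695c4_gt.Hedge.Weight
section
/-!
From hyperfiniteness to weighted hyperfiniteness: cut the weights into geometric bands.
-/

namespace Pool.Agent.Work.MP_2695c4_gt.Hedge

open Finset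
open scoped Classical

variable {Y : Type} [MetricSpace Y] {R ε : ℝ}

lemma hermite {M : ℕ} (hM : 0 < M) (a : ℕ) : ∑ r ∈ range M, (a + r) / M = a := by
  induction a with
  | zero => exact sum_eq_zero fun r hr => by simp [Nat.div_eq_of_lt (mem_range.1 hr)]
  | succ a ih =>
    have h1 := sum_range_succ (fun r => (a + r) / M) M
    rw [sum_range_succ', Nat.add_div_right _ hM, ih, add_zero] at h1
    simp only [add_assoc, add_comm 1]
    omega

lemma band_pair {M : ℕ} (hM : 0 < M) {a b : ℕ} {u v : ℝ} (hu : 2 ^ a ≤ u) (hu' : u < 2 ^ (a + 1))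
    (hv : 2 ^ b ≤ v) (hv' : v < 2 ^ (b + 1)) :
    ∑ r ∈ range M, (if (a + r) / M ≠ (b + r) / M then min u v else 0) ≤ 2 * (u + v) := by
  wlog h : a ≤ b generalizing a b u v
  · simpa only [ne_comm, min_comm, add_comm v] using this hv hv' hu hu' (le_of_not_ge h)
  obtain ⟨c, rfl⟩ := Nat.exists_eq_add_of_le h
  have u0 : 0 < u := lt_of_lt_of_le (by positivity) hu
  refine (sum_le_sum (g := fun r => ((((a + c + r) / M : ℕ) : ℝ) - ((a + r) / M : ℕ)) * u)
    fun r _ => ?_).trans ?_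
  · have h1 : (a + r) / M ≤ (a + c + r) / M := Nat.div_le_div_right (by omega)
    split_ifs with h2
    · refine (min_le_left _ _).trans (le_mul_of_one_le_left u0.le (le_sub_iff_add_le'.2 ?_))
      exact_mod_cast lt_of_le_of_ne h1 h2
    · exact mul_nonneg (sub_nonneg.2 (Nat.cast_le.2 h1)) u0.le
  · rw [← sum_mul, sum_sub_distrib, ← Nat.cast_sum, ← Nat.cast_sum, hermite hM, hermite hM,
      Nat.cast_add, add_sub_cancel_left]
    have h3 : (c : ℝ) ≤ 2 ^ c := by exact_mod_cast Nat.lt_two_pow_self.le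
    have h4 := mul_le_mul h3 hu'.le u0.le (by positivity)
    rw [pow_add] at hv
    rw [pow_succ] at h4
    linarith

lemma sum_close {N : ℝ} (hN : ∀ (x : Y) (F : Finset Y),
    ∑ y ∈ F, (if dist x y ≤ R then (1 : ℝ) else 0) ≤ N) (F : Finset Y) {m : Y → ℝ}
    (hm : ∀ x, 0 ≤ m x) :
    ∑ x ∈ F, ∑ y ∈ F, (if dist x y ≤ R then m x + m y else 0) ≤ 2 * (N * ∑ x ∈ F, m x) := by
  have h : ∑ x ∈ F, ∑ y ∈ F, (if dist x y ≤ R then m x else 0) ≤ N * ∑ x ∈ F, m x := by
    rw [mul_sum]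
    refine sum_le_sum fun x _ => le_of_eq_of_le ?_ (mul_le_mul_of_nonneg_right (hN x F) (hm x))
    simp only [sum_mul, boole_mul]
  simp only [ite_add_zero, sum_add_distrib]
  rw [two_mul]
  refine add_le_add h (le_of_eq_of_le ?_ h)
  rw [sum_comm]
  simp only [dist_comm]

lemma weightV (hY : UnifLocFinite Y) (h : ∀ ε > 0, ∃ S, HF R ε S (Set.univ : Set Y)) (hε : 0 < ε) :
    ∃ S, ∀ (F : Finset Y) (m : Y → ℝ), (∀ x, 1 ≤ m x) → ∃ π : Y → Y,
      (∀ x ∈ F, dist x (π x) ≤ S) ∧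
        cut R F π (fun x y => min (m x) (m y)) ≤ ε * ∑ x ∈ F, m x := by
  obtain ⟨N, N1, hN⟩ := deg_bound hY R
  obtain ⟨M, hM⟩ := exists_nat_ge (8 * N / ε)
  have M0 : (0 : ℝ) < M := lt_of_lt_of_le (by positivity) hM
  have M1 : 0 < M := Nat.cast_pos.1 M0
  obtain ⟨S, hS⟩ := h (ε / 2 / 2 ^ M) (by positivity)
  refine ⟨S, fun F m hm => ?_⟩
  have m0 : ∀ x, 0 ≤ m x := fun x => zero_le_one.trans (hm x)
  have s0 : 0 ≤ ∑ x ∈ F, m x := sum_nonneg fun x _ => m0 x
  choose l h1 h2 using fun x => exists_nat_pow_near (hm x) one_lt_two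
  obtain ⟨r, -, hr⟩ := exists_le_of_sum_le (s := range M) (f := fun r => ∑ x ∈ F, ∑ y ∈ F,
    if dist x y ≤ R then (if (l x + r) / M ≠ (l y + r) / M then min (m x) (m y) else 0) else 0)
    (g := fun _ => ε / 2 * ∑ x ∈ F, m x) (nonempty_range_iff.2 M1.ne') (by
      rw [sum_comm, sum_const, card_range, nsmul_eq_mul]
      refine (sum_le_sum (g := fun x => 2 * ∑ y ∈ F, if dist x y ≤ R then m x + m y else 0)
        fun x _ => ?_).trans ?_
      · rw [sum_comm, mul_sum]
        refine sum_le_sum fun y _ => ?_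
        split_ifs
        · exact band_pair M1 (h1 x) (h2 x) (h1 y) (h2 y)
        · simp
      · rw [← mul_sum]
        linarith [sum_close hN F m0, mul_le_mul_of_nonneg_right ((div_le_iff₀ hε).1 hM) s0])
  generalize hb : (fun x => (l x + r) / M) = b
  have hb' : ∀ x, (l x + r) / M = b x := congrFun hb
  simp only [hb'] at hr
  choose π p1 p2 using fun j => hS (F.filter fun x => b x = j) (Set.subset_univ _)
  have w1 : ∀ x, m x ≤ 2 ^ (M * (b x + 1)) / 2 ^ r := fun x => by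
    rw [le_div_iff₀ (by positivity), ← hb']
    refine (mul_le_mul_of_nonneg_right (h2 x).le (by positivity)).trans ?_
    rw [← pow_add]
    exact pow_le_pow_right₀ one_le_two (by have := Nat.lt_mul_div_succ (l x + r) M1; omega)
  have w2 : ∀ x, 2 ^ (M * (b x + 1)) / 2 ^ r ≤ 2 ^ M * m x := fun x => by
    refine le_trans ?_ (mul_le_mul_of_nonneg_left (h1 x) (by positivity))
    rw [div_le_iff₀ (by positivity), ← hb', ← pow_add, ← pow_add]
    exact pow_le_pow_right₀ one_le_two (by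
      have := Nat.mul_div_le (l x + r) M
      rw [mul_add_one]
      omega)
  refine ⟨fun x => π (b x) x, fun x hx => p1 _ x (mem_filter.2 ⟨hx, rfl⟩), ?_⟩
  have e1 : ∑ x ∈ F, ∑ y ∈ F.filter fun y => b y = b x, (if dist x y ≤ R ∧ π (b x) x ≠ π (b x) y
      then (1 : ℝ) else 0) * (2 ^ (M * (b x + 1)) / 2 ^ r) ≤ ε / 2 * ∑ x ∈ F, m x := by
    rw [← sum_fiberwise_of_maps_to fun x hx => mem_image_of_mem b hx,
      ← sum_fiberwise_of_maps_to (f := m) fun x hx => mem_image_of_mem b hx, mul_sum]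
    refine sum_le_sum fun j _ => (sum_congr rfl fun x hx => by rw [(mem_filter.1 hx).2]).trans_le ?_
    simp only [← sum_mul]
    refine (mul_le_mul_of_nonneg_right (p2 j) (by positivity)).trans ?_
    have := card_nsmul_le_sum (F.filter fun x => b x = j) (fun x => 2 ^ M * m x)
      (2 ^ (M * (j + 1)) / 2 ^ r) fun x hx => (mem_filter.1 hx).2 ▸ w2 x
    rw [nsmul_eq_mul, ← mul_sum] at this
    rw [mul_assoc]
    exact (mul_le_mul_of_nonneg_left this (by positivity)).trans_eq (by field_simp)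
  refine le_trans ?_ ((add_le_add hr e1).trans_eq (by ring))
  rw [← sum_add_distrib]
  refine sum_le_sum fun x _ => ?_
  rw [sum_filter, ← sum_add_distrib]
  refine sum_le_sum fun y _ => ?_
  have e2 := le_min (m0 x) (m0 y)
  by_cases e : b y = b x
  · simp only [e, ne_eq, not_true, if_false, ite_self, if_true, zero_add, boole_mul]
    split_ifs
    · exact (min_le_left _ _).trans (w1 x)
    · rfl
  · simp only [e, Ne.symm e, ne_eq, not_false_iff, if_true, if_false, add_zero, ite_and]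
    split_ifs <;> first | rfl | exact e2

lemma weighted (hY : UnifLocFinite Y) (h : ∀ ε > 0, ∃ S, HF R ε S (Set.univ : Set Y)) (hε : 0 < ε) :
    ∃ S, ∀ (F : Finset Y) (ν : Y → Y → ℝ), (∀ x y, 0 ≤ ν x y) → ∃ π : Y → Y,
      (∀ x ∈ F, dist x (π x) ≤ S) ∧ cut R F π ν ≤ ε * ∑ x ∈ F, ∑ y ∈ F, ν x y := by
  obtain ⟨S, hS⟩ := weightV hY h (show 0 < ε / 3 by positivity)
  refine ⟨S, fun F ν hν => ?_⟩
  rcases (sum_nonneg fun x (_ : x ∈ F) => sum_nonneg fun y (_ : y ∈ F) => hν x y).eq_or_lt with h0 | h0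
  · obtain ⟨π, h1, -⟩ := hS F 1 fun _ => le_rfl
    refine ⟨π, h1, le_of_le_of_eq (sum_le_sum fun x _ => sum_le_sum fun y _ => ?_)
      (h0.symm.trans (by rw [← h0, mul_zero]))⟩
    split_ifs
    exacts [le_rfl, hν x y]
  have c0 : (0 : ℝ) < F.card := Nat.cast_pos.2 (card_pos.2 (nonempty_of_sum_ne_zero h0.ne'))
  generalize ht : ∑ x ∈ F, ∑ y ∈ F, ν x y = t at h0
  have n0 : ∀ x, 0 ≤ ∑ y ∈ F, ν x y ∧ 0 ≤ ∑ y ∈ F, ν y x := fun x =>
    ⟨sum_nonneg fun _ _ => hν _ _, sum_nonneg fun _ _ => hν _ _⟩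
  obtain ⟨π, h1, h2⟩ := hS F (fun x => (∑ y ∈ F, ν x y + ∑ y ∈ F, ν y x) * (F.card / t) + 1)
    fun x => le_add_of_nonneg_left (mul_nonneg (add_nonneg (n0 x).1 (n0 x).2) (by positivity))
  rw [sum_add_distrib, ← sum_mul, sum_add_distrib, sum_comm (f := fun x y => ν y x), ht,
    sum_const, nsmul_one] at h2
  refine ⟨π, h1, le_of_mul_le_mul_right (le_trans ?_ (h2.trans_eq (by field_simp; ring)))
    (show 0 < F.card / t by positivity)⟩
  simp only [cut, sum_mul, ite_zero_mul]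
  refine sum_le_sum fun x hx => sum_le_sum fun y hy => ?_
  split_ifs
  · refine le_min ?_ ?_ <;> refine le_add_of_le_of_nonneg
      (mul_le_mul_of_nonneg_right ?_ (by positivity)) zero_le_one
    · exact le_add_of_le_of_nonneg (single_le_sum (fun z _ => hν x z) hy) (n0 x).2
    · exact le_add_of_nonneg_of_le (n0 y).1 (single_le_sum (f := fun z => ν z y) (fun _ _ => hν _ _) hx)
  · rfl

end Pool.Agent.Work.MP_2695c4_gt.Hedge
end

-- merged part: Pool.Agent.Work.MP_2695c4_gt.Hedge.Pull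
section
/-!
Property A of the target gives a coarse embedding of the source.
-/

namespace Pool.Agent.Work.MP_2695c4_gt.Hedge

open Finset Filter
open scoped Classical symmDiff NNReal

variable {X Y : Type} [MetricSpace X] [MetricSpace Y] {f : X → Y}

lemma pull (hY : UnifLocFinite Y) (hA : PropertyA Y) (hf : IsCoarseMap f) (hK : UnifFiniteToOne f)
    {R ε : ℝ} (hR : 0 < R) (hε : 0 < ε) : ∃ (S : ℝ≥0) (B : X → Finset (X × Y × ℕ)),
      (∀ x, (B x).Nonempty) ∧ (∀ x y, dist x y ≤ R → ((B x ∆ B y).card : ℝ) ≤ ε * (B x).card) ∧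
        ∀ x y, S < dist x y → Disjoint (B x) (B y) := by
  obtain ⟨r, hr, hf⟩ := hf R hR
  obtain ⟨S, A, h1, h2⟩ := hA r ε hr hε
  obtain ⟨N, Bl, -, hB, hN⟩ := ball_bound hY S
  obtain ⟨K, hK⟩ := hK
  lift A to Y → Finset (Y × ℕ) using fun y => (h1 y).1
  have u : ∀ z, ∃ U : Finset X, (∀ x, dist (f x) z ≤ S → x ∈ U) ∧ U.card ≤ N * K := fun z =>
    ⟨(Bl z).biUnion fun y => (Set.finite_of_encard_le_coe (hK y)).toFinset, fun x hx =>
      mem_biUnion.2 ⟨f x, (hB _ _).2 (dist_comm (f x) z ▸ hx), by simp⟩,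
      (card_biUnion_le_card_mul _ _ K fun y _ => by
        have := hK y
        rwa [(Set.finite_of_encard_le_coe (hK y)).encard_eq_coe_toFinset_card, Nat.cast_le] at this).trans
        (Nat.mul_le_mul_right _ (hN z))⟩
  choose U u1 u2 using u
  choose π p1 p2 using fun z => comp_rep hR.le (U z)
  have m : ∀ x, ∀ p ∈ A (f x), x ∈ U p.1 := fun x p hp => u1 _ _ ((h1 _).2.2 p hp)
  have d : ∀ x, ∀ p ∈ A (f x), dist x (π p.1 x) ≤ 2 ^ (N * K) * R := fun x p hp =>
    (p1 _ x (m x p hp)).trans (mul_le_mul_of_nonneg_right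
      ((sub_le_self _ zero_le_one).trans (pow_le_pow_right₀ one_le_two (u2 _))) hR.le)
  refine ⟨⟨2 * (2 ^ (N * K) * R), by positivity⟩, fun x => (A (f x)).image fun p => (π p.1 x, p),
    fun x => (coe_nonempty.1 (h1 _).2.1).image _, fun x y h => ?_,
    fun x y h => disjoint_left.2 fun q hx hy => ?_⟩
  · have e := h2 _ _ (hf x y h)
    rw [← coe_symmDiff, ← coe_inter, Set.ncard_coe_finset, Set.ncard_coe_finset] at e
    rw [card_image_of_injective _ fun p q e => congrArg Prod.snd e]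
    refine le_trans (Nat.cast_le.2 ((card_le_card (t := (A (f x) ∆ A (f y)).image fun p =>
      if p ∈ A (f x) then (π p.1 x, p) else (π p.1 y, p)) fun q hq => ?_).trans card_image_le))
      (e.le.trans (mul_le_mul_of_nonneg_left (Nat.cast_le.2 (card_le_card inter_subset_left)) hε.le))
    rcases mem_symmDiff.1 hq with ⟨a, b⟩ | ⟨a, b⟩ <;> obtain ⟨p, hp, rfl⟩ := mem_image.1 a
    · exact mem_image.2 ⟨p, mem_symmDiff.2 (Or.inl ⟨hp, fun e => b (mem_image.2 ⟨p, e,
        by rw [p2 _ x (m x p hp) y (m y p e) h]⟩)⟩), if_pos hp⟩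
    · have : p ∉ A (f x) := fun e => b (mem_image.2 ⟨p, e, by rw [p2 _ x (m x p e) y (m y p hp) h]⟩)
      exact mem_image.2 ⟨p, mem_symmDiff.2 (Or.inr ⟨hp, this⟩), if_neg this⟩
  · obtain ⟨p, hp, rfl⟩ := mem_image.1 hx
    obtain ⟨p', hp', e⟩ := mem_image.1 hy
    obtain ⟨e, rfl⟩ := Prod.mk.inj e
    refine h.not_ge ((dist_triangle_right x y (π p'.1 x)).trans ?_)
    exact (add_le_add (d x _ hp) (e ▸ d y _ hp')).trans_eq (two_mul _).symm

lemma unit_id {H : Type} [NormedAddCommGroup H] [InnerProductSpace ℝ H] {a b : H} (ha : 0 < ‖a‖)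
    (hb : 0 < ‖b‖) :
    ‖‖a‖⁻¹ • a - ‖b‖⁻¹ • b‖ ^ 2 * (‖a‖ * ‖b‖) = ‖a - b‖ ^ 2 - (‖a‖ - ‖b‖) ^ 2 := by
  simp only [norm_sub_sq_real, norm_smul, inner_smul_left, inner_smul_right, norm_inv, norm_norm,
    conj_trivial]
  field_simp
  ring

lemma units (hY : UnifLocFinite Y) (hA : PropertyA Y) (hf : IsCoarseMap f) (hK : UnifFiniteToOne f)
    (n : ℕ) : ∃ (S : ℝ≥0) (η : X → lp (fun _ : X × Y × ℕ => ℝ) 2),
      (∀ x y, ‖η x - η y‖ ^ 2 ≤ 4 * 2 ^ ⌈nndist x y⌉₊ * (1 / 2) ^ n) ∧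
        ∀ x y, S < nndist x y → 1 ≤ ‖η x - η y‖ ^ 2 := by
  obtain ⟨S, B, h1, h2, h3⟩ := pull hY hA hf hK (R := n + 1) (ε := (1 / 2) ^ n)
    (by positivity) (by positivity)
  have e : ∀ x, ‖emb (B x)‖ ^ 2 = (B x).card := fun x => by
    have := norm_emb_sub_sq (B x) ∅
    rwa [show emb ∅ = 0 from sum_empty, sub_zero, ← bot_eq_empty, symmDiff_bot] at this
  have p : ∀ x, 0 < ‖emb (B x)‖ := fun x => (norm_nonneg _).lt_of_ne' fun h => by
    have := e x
    rw [h, zero_pow two_ne_zero, eq_comm, Nat.cast_eq_zero, card_eq_zero] at this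
    exact (h1 x).ne_empty this
  refine ⟨S, fun x => ‖emb (B x)‖⁻¹ • emb (B x), fun x y => ?_, fun x y h => ?_⟩
  · rcases le_total (dist x y) (n + 1) with h | h
    · refine le_trans (le_of_mul_le_mul_right ?_ (mul_pos (p x) (p y))) (le_mul_of_one_le_left
        (by positivity) (one_le_mul_of_one_le_of_one_le (by norm_num) (one_le_pow₀ one_le_two)))
      have a := h2 x y h
      have b := h2 y x (dist_comm x y ▸ h)
      rw [symmDiff_comm] at b
      rw [← e] at a b
      rw [unit_id (p x) (p y), norm_emb_sub_sq]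
      refine (sub_le_self _ (sq_nonneg _)).trans ?_
      rcases le_total ‖emb (B x)‖ ‖emb (B y)‖ with c | c
      · exact a.trans (by rw [sq]; gcongr)
      · exact b.trans (by rw [sq]; gcongr)
    · have a : n ≤ ⌈nndist x y⌉₊ := Nat.cast_le.1 (le_trans (b := nndist x y) (NNReal.coe_le_coe.1
        ((le_add_of_nonneg_right zero_le_one).trans h : (n : ℝ) ≤ dist x y)) (Nat.le_ceil _))
      rw [one_div_pow, mul_one_div, mul_div_assoc]
      refine le_trans ?_ (le_mul_of_one_le_right zero_le_four ((one_le_div (by positivity)).2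
        (pow_le_pow_right₀ one_le_two a)))
      refine (pow_le_pow_left₀ (norm_nonneg _) (norm_sub_le _ _) 2).trans_eq ?_
      simp only [norm_smul, norm_inv, norm_norm, inv_mul_cancel₀ (p _).ne']
      norm_num
  · refine le_of_mul_le_mul_right ?_ (mul_pos (p x) (p y))
    rw [unit_id (p x) (p y), norm_emb_sub_sq, (h3 x y h).symmDiff_eq_sup, sup_eq_union,
      card_union_of_disjoint (h3 x y h), Nat.cast_add, ← e, ← e]
    linarith [mul_pos (p x) (p y)]

theorem embeds (hY : UnifLocFinite Y) (hA : PropertyA Y) (hf : IsCoarseMap f)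
    (hK : UnifFiniteToOne f) : CoarselyEmbedsMono X := by
  rcases isEmpty_or_nonempty X with _ | ⟨⟨x0⟩⟩
  · exact ⟨ℝ, _, inferInstance, inferInstance, 0, id, id, monotone_id, monotone_id, tendsto_id, isEmptyElim⟩
  choose S η h1 h2 using units hY hA hf hK
  have t : (2 : ENNReal).toReal = (2 : ℕ) := by norm_num
  have t0 : 0 < (2 : ENNReal).toReal := by norm_num
  have e : ∀ x y (s : Finset ℕ), ∑ n ∈ s, ‖η n x - η n y‖ ^ (2 : ENNReal).toReal ≤
      (3 * 2 ^ ⌈nndist x y⌉₊) ^ (2 : ENNReal).toReal := fun x y s => by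
    simp only [t, Real.rpow_natCast]
    refine (sum_le_sum fun n _ => h1 n x y).trans ?_
    have a := (summable_geometric_two.sum_le_tsum s fun _ _ => by positivity).trans_eq tsum_geometric_two
    have b : (1 : ℝ) ≤ 2 ^ ⌈nndist x y⌉₊ := one_le_pow₀ one_le_two
    rw [← mul_sum]
    nlinarith
  have mono : Monotone fun t : ℝ≥0 =>
      NNReal.sqrt ((range ⌈t⌉₊).filter fun n => S n < t).card := fun a b h =>
    NNReal.sqrt_le_sqrt.2 (Nat.cast_le.2 (card_le_card fun n hn => mem_filter.2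
      ⟨range_mono (Nat.ceil_mono h) (mem_filter.1 hn).1, (mem_filter.1 hn).2.trans_le h⟩))
  refine ⟨lp (fun _ : ℕ => lp (fun _ : X × Y × ℕ => ℝ) 2) 2, _, inferInstance, inferInstance,
    fun x => ⟨fun n => η n x - η n x0, memℓp_gen' (e x x0)⟩, _, fun t => 3 * 2 ^ ⌈t⌉₊, mono,
    fun a b h => mul_le_mul_right (pow_le_pow_right₀ one_le_two (Nat.ceil_mono h)) _,
    tendsto_atTop_atTop_of_monotone mono fun b => ?_,
    fun x y => ⟨?_, ?_⟩⟩
  · refine ⟨⌈b ^ 2⌉₊ + ∑ n ∈ range ⌈b ^ 2⌉₊, S n + 1, NNReal.le_sqrt_iff_sq_le.2 ((Nat.le_ceil _).trans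
      (Nat.cast_le.2 ((card_range _).symm.trans_le (card_le_card fun n hn => mem_filter.2 ⟨?_, ?_⟩))))⟩
    · exact range_mono (Nat.cast_le.1 ((le_self_add.trans le_self_add).trans (Nat.le_ceil _))) hn
    · exact ((single_le_sum (fun _ _ => zero_le) hn).trans le_add_self).trans_lt (lt_add_one _)
  · refine NNReal.sqrt_le_iff_le_sq.2 (NNReal.coe_le_coe.1 (le_trans ?_
      ((lp.sum_rpow_le_norm_rpow t0 _ ((range ⌈nndist x y⌉₊).filter fun n => S n < nndist x y)).trans_eq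
        (t ▸ Real.rpow_natCast _ 2))))
    simp only [t, ← nsmul_one]
    exact card_nsmul_le_sum _ _ _ fun n hn => by simpa using h2 n x y (mem_filter.1 hn).2
  · exact NNReal.coe_le_coe.1 (lp.norm_le_of_forall_sum_le t0 (by positivity) fun s => by
      simpa using e x y s)

end Pool.Agent.Work.MP_2695c4_gt.Hedge
end
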