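import Pool.Agent.Work.MP_2695c4_gt.Defs

/-!
Property A and coarse embeddings with non-decreasing control functions.
-/

namespace Pool.Agent.Work.MP_2695c4_gt.Hedge

open scoped NNReal symmDiff

/-- Yu's property A: for all `R, ε > 0` there are `S` and nonempty finite sets
`A x ⊆ B(x, S) × ℕ` with `|A x ∆ A y| < ε |A x ∩ A y|` whenever `d(x, y) ≤ R`. -/
def PropertyA (Y : Type) [MetricSpace Y] : Prop :=
  ∀ R ε : ℝ, 0 < R → 0 < ε → ∃ (S : ℝ) (A : Y → Set (Y × ℕ)),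
    (∀ x, (A x).Finite ∧ (A x).Nonempty ∧ ∀ p ∈ A x, dist x p.1 ≤ S) ∧
      ∀ x y, dist x y ≤ R → ((A x ∆ A y).ncard : ℝ) < ε * (A x ∩ A y).ncard

/-- `X` coarsely embeds into a real Hilbert space with non-decreasing control functions. -/
def CoarselyEmbedsMono (X : Type) [MetricSpace X] : Prop :=
  ∃ (H : Type) (_ : NormedAddCommGroup H) (_ : InnerProductSpace ℝ H) (_ : CompleteSpace H)
    (g : X → H) (ρm ρp : ℝ≥0 → ℝ≥0), Monotone ρm ∧ Monotone ρp ∧
      Filter.Tendsto ρm Filter.atTop Filter.atTop ∧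
        ∀ x x' : X, ρm (nndist x x') ≤ ‖g x - g x'‖₊ ∧ ‖g x - g x'‖₊ ≤ ρp (nndist x x')

end Pool.Agent.Work.MP_2695c4_gt.Hedge
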