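import Pool.Agent.Work.MP_2695c4_gt.Hedge.Pull
import Mathlib
import Pool.Agent.Work.MP_2695c4_gt.Defs
import Pool.Agent.Work.MP_2695c4_gt.Rounding

-- merged part: Pool.Agent.Work.MP_2695c4_gt.Hedge.Minimax
section
/-!
From weighted hyperfiniteness to property A: separation of convex sets, rounding, compactness.
-/

namespace Pool.Agent.Work.MP_2695c4_gt.Hedge

open Finset
open scoped Classical symmDiff

variable {Y : Type} [MetricSpace Y] {R ε : ℝ}

/-- Probability vectors attached to the points of `F`, carried by the sets `B x`. -/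
def Adm (F : Finset Y) (B : Y → Finset Y) (ξ : Y → Y → ℝ) : Prop :=
  ∀ x ∈ F, (∀ z, 0 ≤ ξ x z) ∧ ∑ z ∈ B x, ξ x z = 1 ∧ ∀ z ∉ B x, ξ x z = 0

lemma frac (hε : 0 < ε) {F : Finset Y} {B : Y → Finset Y}
    (hw : ∀ ν : Y → Y → ℝ, (∀ x y, 0 ≤ ν x y) → ∃ π : Y → Y, (∀ x ∈ F, π x ∈ B x) ∧
      cut R F π ν ≤ ε / 2 * ∑ x ∈ F, ∑ y ∈ F, ν x y) :
    ∃ ξ, Adm F B ξ ∧ ∀ x ∈ F, ∀ y ∈ F, dist x y ≤ R → ∑ z ∈ B x, max (ξ x z - ξ y z) 0 ≤ ε := by
  by_contra hc
  obtain ⟨f, u, h1, h2⟩ := geometric_hahn_banach_open (E := Y × Y → ℝ)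
    (s := ⋂ p ∈ F ×ˢ F, {v | v p < ε})
    (t := {v | ∃ ξ, Adm F B ξ ∧ ∀ x ∈ F, ∀ y ∈ F, dist x y ≤ R →
      ∑ z ∈ B x, max (ξ x z - ξ y z) 0 ≤ v (x, y)})
    (convex_iInter₂ fun p _ => convex_halfSpace_lt (LinearMap.proj p).isLinear _)
    (isOpen_biInter_finset fun p _ => isOpen_lt (continuous_apply p) continuous_const)
    (by
      rintro v ⟨ξ, a1, a2⟩ w ⟨ζ, b1, b2⟩ a b ha hb hab
      refine ⟨fun x z => a * ξ x z + b * ζ x z, fun x hx => ⟨fun z => add_nonneg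
        (mul_nonneg ha ((a1 x hx).1 z)) (mul_nonneg hb ((b1 x hx).1 z)), ?_, fun z hz => ?_⟩,
        fun x hx y hy h => le_trans ?_ (add_le_add (mul_le_mul_of_nonneg_left (a2 x hx y hy h) ha)
          (mul_le_mul_of_nonneg_left (b2 x hx y hy h) hb))⟩
      · rw [sum_add_distrib, ← mul_sum, ← mul_sum, (a1 x hx).2.1, (b1 x hx).2.1]
        linarith
      · simp only [(a1 x hx).2.2 z hz, (b1 x hx).2.2 z hz, mul_zero, add_zero]
      · rw [mul_sum, mul_sum, ← sum_add_distrib]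
        refine sum_le_sum fun z _ => max_le ?_ (by positivity)
        rw [add_sub_add_comm, ← mul_sub, ← mul_sub]
        gcongr <;> exact le_max_left _ _)
    (Set.disjoint_left.2 fun v hv ⟨ξ, a1, a2⟩ => hc ⟨ξ, a1, fun x hx y hy h =>
      (a2 x hx y hy h).trans (Set.mem_iInter₂.1 hv (x, y) (mk_mem_product hx hy)).le⟩)
  have e1 : ∀ (c : Y × Y → ℝ), ∀ p ∈ F ×ˢ F,
      (∑ q ∈ F ×ˢ F, c q • (Pi.single q 1 : Y × Y → ℝ)) p = c p := fun c p hp => by
    simp [Finset.sum_apply, Pi.single_apply, hp]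
  have e2 : ∀ c : Y × Y → ℝ, f (∑ q ∈ F ×ˢ F, c q • (Pi.single q 1 : Y × Y → ℝ)) =
      ∑ x ∈ F, ∑ y ∈ F, c (x, y) * f (Pi.single (x, y) 1) := fun c => by
    simp only [map_sum, map_smul, smul_eq_mul, sum_product]
  have e3 : ∀ p, ∀ c ≥ 0, ε / 2 * ∑ x ∈ F, ∑ y ∈ F, f (Pi.single (x, y) 1) -
      c * f (Pi.single p 1) < u := fun p c hc => by
    have := h1 (∑ q ∈ F ×ˢ F, (ε / 2) • (Pi.single q 1 : Y × Y → ℝ) - c • Pi.single p 1)
      (Set.mem_iInter₂.2 fun q hq => by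
        have : 0 ≤ c * (Pi.single p 1 : Y × Y → ℝ) q :=
          mul_nonneg hc (by rw [Pi.single_apply]; positivity)
        simp only [Set.mem_ofPred_eq, Pi.sub_apply, e1 (fun _ => ε / 2) q hq, Pi.smul_apply, smul_eq_mul]
        linarith)
    simpa only [map_sub, e2 fun _ => ε / 2, map_smul, smul_eq_mul, mul_sum] using this
  have e0 := h1 (∑ q ∈ F ×ˢ F, (ε / 2) • (Pi.single q 1 : Y × Y → ℝ)) (Set.mem_iInter₂.2 fun q hq =>
    (e1 (fun _ => ε / 2) q hq).trans_lt (half_lt_self hε))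
  simp only [e2 fun _ => ε / 2, ← mul_sum] at e0
  have e4 : ∀ x y, 0 ≤ f (Pi.single (x, y) 1) := fun x y => not_lt.1 fun h => by
    have := e3 (x, y) (|u - ε / 2 * ∑ x ∈ F, ∑ y ∈ F, f (Pi.single (x, y) 1)| / -f (Pi.single (x, y) 1))
      (div_nonneg (abs_nonneg _) (neg_pos.2 h).le)
    rw [div_neg, neg_mul, div_mul_cancel₀ _ h.ne] at this
    linarith [le_abs_self (u - ε / 2 * ∑ x ∈ F, ∑ y ∈ F, f (Pi.single (x, y) 1))]
  obtain ⟨π, p1, p2⟩ := hw _ e4
  have e5 := h2 (∑ q ∈ F ×ˢ F, (if dist q.1 q.2 ≤ R ∧ π q.1 ≠ π q.2 then (1 : ℝ) else 0) •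
    (Pi.single q 1 : Y × Y → ℝ)) ⟨fun x z => if π x = z then 1 else 0, fun x hx =>
      ⟨fun z => by positivity, by simp [p1 x hx], fun z hz => if_neg fun e : π x = z =>
        hz (e ▸ p1 x hx)⟩, fun x hx y hy h => by
        rw [e1 _ (x, y) (mk_mem_product hx hy), sum_eq_single_of_mem _ (p1 x hx) fun z _ hz => by
          simp only [hz.symm, if_false]
          exact max_eq_right (sub_nonpos.2 (by positivity))]
        by_cases e : π x = π y <;> simp [e, h, eq_comm (a := π y)]⟩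
  rw [e2] at e5
  simp only [boole_mul] at e5
  exact (e0.trans_le (e5.trans p2)).false

lemma cnt_ge {M : ℕ} {t : ℝ} (h : t ≤ M) : t ≤ ((range M).filter fun i : ℕ => (i : ℝ) < t).card := by
  refine (Nat.le_ceil t).trans (Nat.cast_le.2 ((card_range _).symm.trans_le (card_le_card fun i hi => ?_)))
  exact mem_filter.2 ⟨mem_range.2 ((mem_range.1 hi).trans_le (Nat.ceil_le.2 h)),
    Nat.lt_ceil.1 (mem_range.1 hi)⟩

lemma cnt_le {M : ℕ} {t s : ℝ} (h : 0 ≤ s) :
    (((range M).filter fun i : ℕ => (i : ℝ) < t ∧ s ≤ i).card : ℝ) ≤ max (t - s) 0 + 1 := by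
  refine (Nat.cast_le.2 (card_le_card (t := Ico ⌈s⌉₊ ⌈t⌉₊) fun i hi => mem_Ico.2
    ⟨Nat.ceil_le.2 (mem_filter.1 hi).2.2, Nat.lt_ceil.2 (mem_filter.1 hi).2.1⟩)).trans ?_
  rw [Nat.card_Ico]
  rcases le_total t s with e | e
  · rw [Nat.sub_eq_zero_of_le (Nat.ceil_mono e), Nat.cast_zero]
    positivity
  · rw [Nat.cast_sub (Nat.ceil_mono e)]
    linarith [Nat.ceil_lt_add_one (h.trans e), Nat.le_ceil s, le_max_left (t - s) 0]

lemma propA_of_hf (hY : UnifLocFinite Y)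
    (h : ∀ R > 0, ∀ ε > 0, ∃ S, HF R ε S (Set.univ : Set Y)) : PropertyA Y := by
  intro R ε hR hε
  obtain ⟨δ, d0, d1, d2⟩ : ∃ δ : ℝ, 0 < δ ∧ 8 * δ ≤ 1 ∧ 16 * δ ≤ ε :=
    ⟨min (1 / 8) (ε / 16), by positivity, by linarith [min_le_left (1 / 8) (ε / 16)],
      by linarith [min_le_right (1 / 8) (ε / 16)]⟩
  obtain ⟨S, hS⟩ := weighted hY (h R hR) (half_pos d0)
  obtain ⟨N, B, N0, hB, hN⟩ := ball_bound hY S
  obtain ⟨M, hM⟩ := exists_nat_ge (N / δ)
  have M0 : (0 : ℝ) < M := lt_of_lt_of_le (by positivity) hM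
  rw [div_le_iff₀ d0] at hM
  choose ξ a1 a2 using fun F : Finset Y => frac (R := R) d0 (F := F) (B := B) fun ν hν =>
    (hS F ν hν).imp fun π hπ => ⟨fun x hx => (hB _ _).2 (hπ.1 x hx), hπ.2⟩
  obtain ⟨χ, hχ⟩ := Finset.rado_selection (β := fun x => ↥(B x ×ˢ range M).powerset) fun F x =>
    ⟨(B x ×ˢ range M).filter fun p => (p.2 : ℝ) < M * ξ F x p.1, mem_powerset.2 (filter_subset _ _)⟩
  have le1 : ∀ F, ∀ x ∈ F, ∀ z ∈ B x, M * ξ F x z ≤ M := fun F x hx z hz =>
    mul_le_of_le_one_right M0.le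
      ((single_le_sum (fun z _ => (a1 F x hx).1 z) hz).trans_eq (a1 F x hx).2.1)
  have c1 : ∀ x, (M : ℝ) ≤ (χ x).1.card := fun x => by
    obtain ⟨F, h1, h2⟩ := hχ {x}
    have hx := h1 (mem_singleton_self x)
    rw [h2 x (mem_singleton_self x), card_filter, sum_product, Nat.cast_sum]
    refine le_of_eq_of_le (by rw [← mul_sum, (a1 F x hx).2.1, mul_one])
      (sum_le_sum fun z hz => (cnt_ge (le1 F x hx z hz)).trans_eq (by rw [card_filter]))
  have c2 : ∀ x y, dist x y ≤ R → (((χ x).1 \ (χ y).1).card : ℝ) ≤ 2 * (M * δ) := fun x y hd => by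
    obtain ⟨F, h1, h2⟩ := hχ {x, y}
    have hx : x ∈ F := h1 (by simp)
    have hy : y ∈ F := h1 (by simp)
    rw [h2 x (by simp), h2 y (by simp)]
    refine (Nat.cast_le.2 (card_le_card (t := (B x ×ˢ range M).filter fun p =>
      (p.2 : ℝ) < M * ξ F x p.1 ∧ M * ξ F y p.1 ≤ p.2) fun p hp => ?_)).trans ?_
    · obtain ⟨p1, p2⟩ := mem_sdiff.1 hp
      refine mem_filter.2 ⟨(mem_filter.1 p1).1, (mem_filter.1 p1).2, not_lt.1 fun e => p2 ?_⟩
      refine mem_filter.2 ⟨mem_product.2 ⟨by_contra fun e' => ?_,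
        (mem_product.1 (mem_filter.1 p1).1).2⟩, e⟩
      rw [(a1 F y hy).2.2 _ e', mul_zero] at e
      exact e.not_ge (Nat.cast_nonneg _)
    · rw [card_filter, sum_product, Nat.cast_sum]
      refine (sum_le_sum (g := fun z => M * max (ξ F x z - ξ F y z) 0 + 1) fun z _ => ?_).trans ?_
      · rw [← card_filter, mul_max_of_nonneg _ _ M0.le, mul_sub, mul_zero]
        exact cnt_le (M := M) (t := M * ξ F x z) (s := M * ξ F y z)
          (mul_nonneg M0.le ((a1 F y hy).1 z))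
      · rw [sum_add_distrib, ← mul_sum, sum_const, nsmul_one]
        linarith [mul_le_mul_of_nonneg_left (a2 F x hx y hy hd) M0.le, Nat.cast_le (α := ℝ).2 (hN x)]
  refine ⟨S, fun x => (χ x).1, fun x => ⟨finite_toSet _,
    coe_nonempty.2 (card_pos.1 (Nat.cast_pos.1 (M0.trans_le (c1 x)))), fun p hp =>
      (hB _ _).1 (mem_product.1 (mem_powerset.1 (χ x).2 hp)).1⟩, fun x y hd => ?_⟩
  have e1 := Nat.cast_le (α := ℝ).2 (card_union_le ((χ x).1 \ (χ y).1) ((χ y).1 \ (χ x).1))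
  have e2 := congrArg (Nat.cast (R := ℝ)) (card_sdiff_add_card_inter (χ x).1 (χ y).1)
  rw [← coe_symmDiff, ← coe_inter, Set.ncard_coe_finset, Set.ncard_coe_finset, symmDiff_def,
    sup_eq_union]
  push_cast at e1 e2
  have e3 : M / 2 ≤ (((χ x).1 ∩ (χ y).1).card : ℝ) := by
    linarith [c1 x, c2 x y hd, mul_le_mul_of_nonneg_left d1 M0.le]
  linarith [c2 x y hd, c2 y x (dist_comm x y ▸ hd), mul_le_mul_of_nonneg_left e3 hε.le,
    mul_le_mul_of_nonneg_left d2 M0.le, mul_pos M0 hε]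

end Pool.Agent.Work.MP_2695c4_gt.Hedge
end

-- merged part: Pool.Agent.Work.MP_2695c4_gt.Hedge.Cheeger
section
/-!
Expansion of small sets gives exponential decay of the heat kernel for short times.
-/

namespace Pool.Agent.Work.MP_2695c4_gt.Hedge

open Finset Matrix

variable {V : Type} [Fintype V] [DecidableEq V]

lemma coarea {K : V → V → ℝ} (K0 : ∀ x y, 0 ≤ K x y) {T : Finset V} {h : ℝ}
    (hx : ∀ E ⊆ T, h * E.card ≤ ∑ x ∈ E, ∑ y ∈ Eᶜ, K x y) (E : Finset V) :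
    ∀ g : V → ℝ, E ⊆ T → (∀ x, 0 ≤ g x) → (∀ x ∉ E, g x = 0) →
      h * ∑ x, g x ≤ ∑ x, ∑ y, K x y * max (g x - g y) 0 := by
  induction E using Finset.strongInduction with
  | H E ih =>
    intro g hE g0 g1
    rcases E.eq_empty_or_nonempty with rfl | hne
    · simp [g1 _ (notMem_empty _)]
    obtain ⟨a, ha, hm⟩ := exists_min_image E g hne
    have h1 := ih (E.erase a) (erase_ssubset ha) (fun x => if x ∈ E then g x - g a else 0)
      ((erase_subset _ _).trans hE) (fun x => by split_ifs with e; exacts [sub_nonneg.2 (hm x e), le_rfl])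
      fun x e => by
        split_ifs with e'
        · rw [not_not.1 fun e2 => e (mem_erase.2 ⟨e2, e'⟩ : x ∈ E.erase a), sub_self]
        · rfl
    have h2 := mul_le_mul_of_nonneg_left (hx E hE) (g0 a)
    rw [sum_ite_mem, univ_inter, sum_sub_distrib, sum_const, nsmul_eq_mul,
      sum_subset (subset_univ E) fun x _ => g1 x] at h1
    have h3 : g a * ∑ x ∈ E, ∑ y ∈ Eᶜ, K x y =
        ∑ x, ∑ y, if x ∈ E then (if y ∈ Eᶜ then g a * K x y else 0) else 0 := by
      simp only [sum_ite_irrel, sum_ite_mem, univ_inter, mul_sum, sum_const_zero]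
    refine le_trans (by linarith) ((add_le_add h1 (h2.trans_eq h3)).trans ?_)
    simp only [← sum_add_distrib]
    refine sum_le_sum fun x _ => sum_le_sum fun y _ => ?_
    have := mul_nonneg (K0 x y) (le_max_right (g x - g y) 0)
    by_cases e : x ∈ E <;> by_cases e' : y ∈ E <;> simp only [e, e', mem_compl, if_true, if_false,
      not_true, not_false_iff, add_zero, sub_sub_sub_cancel_right, le_refl]
    · rw [g1 y e', sub_zero, sub_zero, max_eq_left (g0 x), max_eq_left (sub_nonneg.2 (hm x e))]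
      linarith
    · rwa [max_eq_right (sub_nonpos.2 (sub_nonneg.2 (hm y e'))), mul_zero]
    · rwa [sub_self, max_self, mul_zero]

lemma contract {K : V → V → ℝ} (K0 : ∀ x y, 0 ≤ K x y) (Ks : ∀ x y, K x y = K y x)
    (K1 : ∀ x, ∑ y, K x y = 1) {T : Finset V} {h : ℝ} (h0 : 0 ≤ h)
    (hx : ∀ E ⊆ T, h * E.card ≤ ∑ x ∈ E, ∑ y ∈ Eᶜ, K x y) {f : V → ℝ} (hf : ∀ x ∉ T, f x = 0) :
    ∑ x, ((f x + ∑ y, K x y * f y) / 2) ^ 2 ≤ (1 - h ^ 2 / 16) * ∑ x, f x ^ 2 := by
  have e1 : ∑ x, ∑ y, K x y * f x ^ 2 = ∑ x, f x ^ 2 := by simp only [← sum_mul, K1, one_mul]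
  have e2 : ∑ x, ∑ y, K x y * f y ^ 2 = ∑ x, f x ^ 2 := by
    rw [sum_comm, ← e1]
    exact sum_congr rfl fun x _ => sum_congr rfl fun y _ => by rw [Ks]
  have h1 := mul_le_mul_of_nonneg_left (coarea K0 hx T (fun x => f x ^ 2) subset_rfl
    (fun _ => sq_nonneg _) fun x e => by simp [hf x e]) h0
  have h2 : h * ∑ x, ∑ y, K x y * max (f x ^ 2 - f y ^ 2) 0 ≤ ∑ x, ∑ y, (2 * (K x y * (f x - f y) ^ 2)
      + h ^ 2 / 4 * (K x y * f x ^ 2) + h ^ 2 / 4 * (K x y * f y ^ 2)) := by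
    simp only [mul_sum]
    refine sum_le_sum fun x _ => sum_le_sum fun y _ => ?_
    rw [mul_left_comm, mul_max_of_nonneg _ _ h0, mul_zero]
    refine (mul_le_mul_of_nonneg_left (max_le (b := 0) (c := 2 * (f x - f y) ^ 2 +
      h ^ 2 / 4 * f x ^ 2 + h ^ 2 / 4 * f y ^ 2) ?_ (by positivity)) (K0 x y)).trans_eq (by ring)
    nlinarith [sq_nonneg (4 * (f x - f y) - h * (f x + f y)), sq_nonneg (h * (f x - f y))]
  have h3 : ∑ x, ((f x + ∑ y, K x y * f y) / 2) ^ 2 ≤ ∑ x, ∑ y, (1 / 2 * (K x y * f x ^ 2) +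
      1 / 2 * (K x y * f y ^ 2) - 1 / 4 * (K x y * (f x - f y) ^ 2)) := sum_le_sum fun x _ => by
    have := (even_two.convexOn_pow (𝕜 := ℝ)).map_sum_le (t := univ) (w := K x)
      (p := fun y => (f x + f y) / 2) (fun y _ => K0 x y) (K1 x) fun _ _ => trivial
    simp only [smul_eq_mul] at this
    refine le_of_eq_of_le ?_ (this.trans_eq (sum_congr rfl fun y _ => by ring))
    simp only [← mul_div_assoc, ← sum_div, mul_add, sum_add_distrib, ← sum_mul, K1, one_mul]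
  simp only [sum_add_distrib, sum_sub_distrib, ← mul_sum, e1, e2] at h2 h3
  linarith

lemma heat [MetricSpace V] {R D c S μ : ℝ} (hR : 0 ≤ R) (hD : 0 < D) (hc : 0 ≤ c)
    (hdeg : ∀ x : V, ∑ y, (if dist x y ≤ R then (1 : ℝ) else 0) ≤ D)
    (hx : ∀ (x0 : V) (E : Finset V), (∀ x ∈ E, dist x x0 ≤ S) → c * E.card ≤ bd R E Eᶜ)
    {k g : ℕ} (μ0 : 0 ≤ μ) (hμ : 1 - (c / D) ^ 2 / 16 ≤ μ) (hk : μ ^ k ≤ (1 / 24) ^ 2)
    (hS : (k * g : ℕ) * R ≤ S) :
    ∃ Q : Matrix V V ℝ, Q.IsSymm ∧ Q ∈ rowStochastic ℝ V ∧ (∀ x y, Q x y ≠ 0 → dist x y ≤ k * R) ∧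
      ∀ j ≤ g, ∀ x y, (Q ^ j) x y ≤ (1 / 24) ^ j := by
  obtain ⟨K, hK⟩ : ∃ K : Matrix V V ℝ, ∀ x y, K x y = (if dist x y ≤ R then 1 else 0) / D +
    if x = y then 1 - (∑ y, if dist x y ≤ R then (1 : ℝ) else 0) / D else 0 := ⟨_, fun _ _ => rfl⟩
  have K0 : ∀ x y, 0 ≤ K x y := fun x y => hK x y ▸ add_nonneg (by positivity) (by
    split_ifs
    exacts [sub_nonneg.2 (div_le_one_of_le₀ (hdeg x) hD.le), le_rfl])
  have Ks : ∀ x y, K x y = K y x := fun x y => by
    rcases eq_or_ne x y with rfl | e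
    · rfl
    · simp only [hK, e, e.symm, dist_comm, if_false]
  have K1 : ∀ x, ∑ y, K x y = 1 := fun x => by simp [hK, sum_add_distrib, ← sum_div]
  obtain ⟨P, hP⟩ : ∃ P : Matrix V V ℝ, ∀ x y, P x y = ((if x = y then 1 else 0) + K x y) / 2 :=
    ⟨_, fun _ _ => rfl⟩
  have P1 : P ∈ rowStochastic ℝ V := mem_rowStochastic_iff_sum.2
    ⟨fun x y => hP x y ▸ by have := K0 x y; positivity, fun x => by
      simp [hP, ← sum_div, sum_add_distrib, K1]⟩
  have s1 : ∀ n : ℕ, ∀ x y, (P ^ n) x y ≠ 0 → dist x y ≤ n * R := fun n => by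
    induction n with
    | zero => intro x y e; simp [not_not.1 fun e' => e (one_apply_ne e')]
    | succ n ih =>
      intro x y e
      rw [pow_succ', mul_apply] at e
      obtain ⟨z, -, e⟩ := exists_ne_zero_of_sum_ne_zero e
      have : dist x z ≤ R := not_lt.1 fun e' => left_ne_zero_of_mul e (by
        have : x ≠ z := fun e2 => by simp [e2] at e'; linarith
        simp [hP, hK, this, e'.not_ge])
      push_cast
      linarith [dist_triangle x z y, ih z y (right_ne_zero_of_mul e)]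
  have s2 : ∀ y, ∀ n ≤ k * g, ∑ x, (P ^ n) x y ^ 2 ≤ μ ^ n := fun y n hn => by
    induction n with
    | zero => simp [one_apply]
    | succ n ih =>
      have := contract K0 Ks K1 (T := univ.filter fun x => dist x y ≤ S) (div_nonneg hc hD.le)
        (f := fun x => (P ^ n) x y) (fun E hE => ?_) fun x e => not_not.1 fun e' =>
          e (mem_filter.2 ⟨mem_univ _, (s1 n x y e').trans (le_trans (by gcongr; omega) hS)⟩)
      · rw [pow_succ' μ]
        refine le_of_eq_of_le (sum_congr rfl fun x _ => ?_) (this.trans (mul_le_mul hμ (ih (by omega))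
          (by positivity) μ0))
        simp only [pow_succ' P, mul_apply, hP, div_mul_eq_mul_div, ← sum_div, add_mul,
          sum_add_distrib, boole_mul, sum_ite_eq, mem_univ, if_true]
      · rw [div_mul_eq_mul_div]
        refine (div_le_div_of_nonneg_right (hx y E fun x e => (mem_filter.1 (hE e)).2) hD.le).trans_eq ?_
        simp only [bd, sum_div]
        refine sum_congr rfl fun x e => sum_congr rfl fun z e' => ?_
        rw [hK, if_neg (ne_of_mem_of_not_mem e (mem_compl.1 e')), add_zero]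
  refine ⟨P ^ k, IsSymm.pow (IsSymm.ext fun x y => by simp only [hP, Ks, eq_comm]) _, pow_mem P1 _,
    s1 k, fun j hj x y => le_of_sq_le_sq ?_ (by positivity)⟩
  rw [← pow_mul P, ← pow_mul, mul_comm j, pow_mul _ 2]
  refine ((single_le_sum (f := fun x => (P ^ (k * j)) x y ^ 2) (fun _ _ => sq_nonneg _)
    (mem_univ x)).trans (s2 y _ (Nat.mul_le_mul_left k hj))).trans ?_
  rw [pow_mul]
  exact pow_le_pow_left₀ (by positivity) hk j

end Pool.Agent.Work.MP_2695c4_gt.Hedge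
end

-- merged part: Pool.Agent.Work.MP_2695c4_gt.Hedge.Trail
section
/-!
Walks in a set of ordered pairs, and random sparsification to large girth.
-/

namespace Pool.Agent.Work.MP_2695c4_gt.Hedge

open Finset Matrix

variable {V : Type}

/-- The ordered pair used by a step from `x`. -/
def ed (x : V) (a : V × Bool) : V × V := if a.2 then (x, a.1) else (a.1, x)

/-- The ordered pairs used by a walk. -/
def es : V → List (V × Bool) → List (V × V)
  | _, [] => []
  | x, a :: l => ed x a :: es a.1 l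

/-- The end of a walk. -/
def en : V → List (V × Bool) → V
  | x, [] => x
  | _, a :: l => en a.1 l

/-- The holonomy of a signing along a walk. -/
def hl (s : V × V → ZMod 2) (x : V) (l : List (V × Bool)) : ZMod 2 := ((es x l).map s).sum

/-- No nonempty closed trail of length at most `g`. -/
def NoCyc (G : Finset (V × V)) (g : ℕ) : Prop :=
  ∀ x l, l ≠ [] → l.length ≤ g → (∀ e ∈ es x l, e ∈ G) → (es x l).Nodup → en x l ≠ x

lemma en_append (x : V) (l l' : List (V × Bool)) : en x (l ++ l') = en (en x l) l' := by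
  induction l generalizing x with
  | nil => rfl
  | cons a l ih => exact ih a.1

lemma es_append (x : V) (l l' : List (V × Bool)) : es x (l ++ l') = es x l ++ es (en x l) l' := by
  induction l generalizing x with
  | nil => rfl
  | cons a l ih => exact congrArg (ed x a :: ·) (ih a.1)

lemma mem_es {x : V} {l : List (V × Bool)} {e : V × V} (h : e ∈ es x l) :
    ∃ l1 b l2, l = l1 ++ b :: l2 ∧ ed (en x l1) b = e := by
  induction l generalizing x with
  | nil => cases h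
  | cons a l ih =>
    rcases List.mem_cons.1 h with rfl | h
    · exact ⟨[], a, l, rfl, rfl⟩
    · obtain ⟨l1, b, l2, rfl, h'⟩ := ih h
      exact ⟨a :: l1, b, l2, rfl, h'⟩

lemma exists_rev (x : V) (l : List (V × Bool)) : ∃ l' : List (V × Bool), l'.length = l.length ∧
    en (en x l) l' = x ∧ es (en x l) l' = (es x l).reverse := by
  induction l generalizing x with
  | nil => exact ⟨[], rfl, rfl, rfl⟩
  | cons a l ih =>
    obtain ⟨l', h1, h2, h3⟩ := ih a.1
    refine ⟨l' ++ [(x, !a.2)], by simp [h1], by rw [en_append]; rfl, ?_⟩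
    rw [es_append, en, h2, h3, es, es, es, List.reverse_cons]
    cases h : a.2 <;> simp [ed, h]

lemma dist_en [PseudoMetricSpace V] {G : Finset (V × V)} {r : ℝ} (hG : ∀ e ∈ G, dist e.1 e.2 ≤ r)
    (x : V) (l : List (V × Bool)) (h : ∀ e ∈ es x l, e ∈ G) : dist x (en x l) ≤ l.length * r := by
  induction l generalizing x with
  | nil => simp [en]
  | cons a l ih =>
    have h1 := hG _ (h _ List.mem_cons_self)
    have h2 := ih a.1 fun e he => h e (List.mem_cons_of_mem _ he)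
    have h3 : dist x a.1 ≤ r := by cases e : a.2 <;> simpa [ed, e, dist_comm] using h1
    rw [List.length_cons, Nat.cast_succ, en]
    linarith [dist_triangle x a.1 (en a.1 l)]

lemma exists_trail {G : Finset (V × V)} {g : ℕ} (hG : NoCyc G g) (s : V × V → ZMod 2)
    (l : List (V × Bool)) : ∀ x, l.length ≤ g → (∀ e ∈ es x l, e ∈ G) →
      ∃ l' : List (V × Bool), l'.length ≤ l.length ∧ (∀ e ∈ es x l', e ∈ G) ∧ (es x l').Nodup ∧
        en x l' = en x l ∧ hl s x l' = hl s x l := by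
  induction l with
  | nil => exact fun x _ h => ⟨[], le_rfl, h, List.nodup_nil, rfl, rfl⟩
  | cons a l ih =>
    intro x h1 h2
    rw [List.length_cons] at h1 ⊢
    obtain ⟨l', h3, h4, h5, h6, h7⟩ := ih a.1 (by omega) fun e he => h2 e (List.mem_cons_of_mem _ he)
    have h8 : hl s x (a :: l) = s (ed x a) + hl s a.1 l' := by rw [h7]; rfl
    by_cases h : ed x a ∈ es a.1 l'
    · obtain ⟨l1, b, l2, rfl, h'⟩ := mem_es h
      rw [List.length_append, List.length_cons] at h3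
      have h9 : en a.1 l1 = x ∧ b.1 = a.1 ∨ en a.1 l1 = a.1 ∧ b.1 = x := by
        cases e : a.2 <;> cases e' : b.2 <;> simp [ed, e, e'] at h' <;> tauto
      rcases h9 with h9 | h9
      · rw [← List.singleton_append, ← List.append_assoc, es_append] at h4 h5
        exact (hG a.1 (l1 ++ [b]) (by simp) (by simp; omega) (fun e he => h4 e
          (List.mem_append_left _ he)) h5.of_append_left (by rw [en_append]; exact h9.2)).elim
      · rw [es_append] at h4 h5
        obtain rfl : l1 = [] := by_contra fun e => hG a.1 l1 e (by omega) (fun e he => h4 e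
          (List.mem_append_left _ he)) h5.of_append_left h9.1
        obtain rfl := h9.2
        refine ⟨l2, by omega, fun e he => h4 e (List.mem_cons_of_mem _ he), h5.of_cons, h6, ?_⟩
        rw [h8, ← h']
        exact (CharTwo.add_cancel_left _ _).symm
    · refine ⟨a :: l', by simpa using h3, fun e he => ?_, List.nodup_cons.2 ⟨h, h5⟩, h6, h8.symm⟩
      rcases List.mem_cons.1 he with rfl | he
      exacts [h2 _ List.mem_cons_self, h4 e he]

lemma hl_eq_zero {G : Finset (V × V)} {g : ℕ} (hG : NoCyc G g) (s : V × V → ZMod 2) {x : V}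
    {l : List (V × Bool)} (h1 : l.length ≤ g) (h2 : ∀ e ∈ es x l, e ∈ G) (h3 : en x l = x) :
    hl s x l = 0 := by
  obtain ⟨l', h4, h5, h6, h7, h8⟩ := exists_trail hG s l x h1 h2
  obtain rfl : l' = [] := by_contra fun e => hG x l' e (h4.trans h1) h5 h6 (h7.trans h3)
  exact h8.symm

variable [Fintype V] [DecidableEq V]

/-- All walks of a given length. -/
def Ls (V : Type) [Fintype V] : ℕ → Finset (List (V × Bool))
  | 0 => {[]}
  | j + 1 => (univ ×ˢ Ls V j).map ⟨fun p => p.1 :: p.2, fun _ _ h =>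
      Prod.ext (List.cons.inj h).1 (List.cons.inj h).2⟩

omit [DecidableEq V] in
lemma mem_Ls (l : List (V × Bool)) : l ∈ Ls V l.length := by
  induction l with
  | nil => exact mem_singleton_self _
  | cons a l ih => exact mem_map.2 ⟨(a, l), mk_mem_product (mem_univ _) ih, rfl⟩

lemma sum_Ls {Q : Matrix V V ℝ} (Qs : Q.IsSymm) (j : ℕ) (x y : V) :
    ∑ l ∈ Ls V j, (if en x l = y then ((es x l).map fun e => 3 * Q e.1 e.2).prod else 0) =
      6 ^ j * (Q ^ j) x y := by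
  induction j generalizing x with
  | zero => simp [Ls, en, es, one_apply]
  | succ j ih =>
    rw [Ls, sum_map, sum_product, pow_succ' Q, mul_apply, mul_sum, Fintype.sum_prod_type]
    refine sum_congr rfl fun z _ => ?_
    simp only [Function.Embedding.coeFn_mk, en, es, List.map_cons, List.prod_cons, ← mul_ite_zero,
      ← mul_sum, ih, Fintype.sum_bool, ed, if_true, Bool.false_eq_true, if_false, Qs.apply x z]
    ring

lemma prob {E : Type} [Fintype E] [DecidableEq E] (p : E → ℝ) (C : Finset E) :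
    ∑ A : Finset E, ((∏ e ∈ A, p e) * ∏ e ∈ Aᶜ, (1 - p e)) * (if C ⊆ A then 1 else 0) =
      ∏ e ∈ C, p e := by
  have h := Fintype.prod_add p fun e => if e ∈ C then 0 else 1 - p e
  rw [prod_congr rfl (g := fun e => if e ∈ C then p e else 1) fun e _ => by split_ifs <;> ring,
    prod_ite_mem, univ_inter] at h
  rw [h]
  refine sum_congr rfl fun A _ => ?_
  split_ifs with e
  · rw [mul_one]
    exact congrArg _ (prod_congr rfl fun a ha => (if_neg fun h => mem_compl.1 ha (e h)).symm)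
  · obtain ⟨a, h1, h2⟩ := not_subset.1 e
    rw [prod_eq_zero (f := fun e => if e ∈ C then 0 else 1 - p e) (mem_compl.2 h2) (if_pos h1),
      mul_zero, mul_zero]

lemma sparse [Nonempty V] {Q : Matrix V V ℝ} (Qs : Q.IsSymm) (Q1 : Q ∈ rowStochastic ℝ V) {g : ℕ}
    (hg : 1 ≤ g) (hQ : ∀ j ≤ g, ∀ x y, (Q ^ j) x y ≤ (1 / 24) ^ j) :
    ∃ G : Finset (V × V), G.card = 2 * Fintype.card V ∧ (∀ e ∈ G, Q e.1 e.2 ≠ 0) ∧ NoCyc G g := by
  obtain ⟨w, hw⟩ : ∃ w : Finset (V × V) → ℝ, ∀ A, w A =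
    (∏ e ∈ A, 3 * Q e.1 e.2) * ∏ e ∈ Aᶜ, (1 - 3 * Q e.1 e.2) := ⟨_, fun _ => rfl⟩
  have w0 : ∀ A, 0 ≤ w A := fun A => hw A ▸ mul_nonneg
    (prod_nonneg fun e _ => mul_nonneg zero_le_three (Q1.1 _ _)) (prod_nonneg fun e _ => by
      have := hQ 1 hg e.1 e.2
      rw [pow_one, pow_one] at this
      linarith)
  have w1 : ∀ C, ∑ A, w A * (if C ⊆ A then 1 else 0) = ∏ e ∈ C, 3 * Q e.1 e.2 := fun C => by
    simp only [hw, prob]
  have w2 : ∑ A, w A = 1 := by simpa using w1 ∅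
  have c0 : (0 : ℝ) < Fintype.card V := Nat.cast_pos.2 Fintype.card_pos
  obtain ⟨A, hA⟩ : ∃ A : Finset (V × V), 2 * (Fintype.card V : ℝ) + ∑ x, ∑ j ∈ range g,
      ∑ l ∈ Ls V (j + 1), (if en x l = x ∧ (es x l).Nodup then
        (if (es x l).toFinset ⊆ A then 1 else 0) else 0) ≤
      ∑ e ∈ univ.filter fun e : V × V => Q e.1 e.2 ≠ 0, if {e} ⊆ A then 1 else 0 := by
    by_contra hc
    have h1 := sum_le_sum (s := univ) fun A _ =>
      mul_le_mul_of_nonneg_left (not_le.1 (not_exists.1 hc A)).le (w0 A)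
    simp only [mul_add, sum_add_distrib, mul_sum] at h1
    rw [sum_comm, ← sum_mul, w2, sum_comm (s := univ) (t := (univ : Finset V))] at h1
    simp only [w1, prod_singleton] at h1
    rw [sum_filter_of_ne fun e _ h => right_ne_zero_of_mul h, Fintype.sum_prod_type,
      sum_congr rfl (g := fun _ => 3) fun x _ => by
        rw [← mul_sum, sum_row_of_mem_rowStochastic Q1, mul_one]] at h1
    refine (h1.trans (add_le_add_right (sum_le_card_nsmul _ _ (1 / 2) fun x _ => ?_) _)).not_gt ?_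
    · rw [sum_comm]
      refine (sum_le_sum fun j hj => ?_).trans
        (mul_sum (range g) _ (1 / 4 : ℝ) ▸ (mul_le_mul_of_nonneg_left (sum_geometric_two_le g)
          (by norm_num)).trans_eq (by norm_num))
      rw [sum_comm]
      refine (sum_le_sum fun l _ => ?_).trans ((sum_Ls Qs (j + 1) x x).trans_le
        ((mul_le_mul_of_nonneg_left (hQ _ (mem_range.1 hj) x x) (by positivity)).trans ?_))
      · by_cases e : en x l = x ∧ (es x l).Nodup
        · simp only [e, and_self, if_true, w1, List.prod_toFinset _ e.2, le_refl]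
        · simp only [e, if_false, sum_const_zero, mul_zero]
          split_ifs
          · exact List.prod_nonneg fun a ha => by
              obtain ⟨b, -, rfl⟩ := List.mem_map.1 ha
              exact mul_nonneg zero_le_three (Q1.1 _ _)
          · rfl
      · rw [← mul_pow, pow_succ']
        gcongr <;> norm_num
    · rw [sum_const, card_univ, nsmul_eq_mul, nsmul_eq_mul]
      linarith
  obtain ⟨B, hB⟩ : ∃ B, B = univ.biUnion fun x : V => (range g).biUnion fun j =>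
    ((Ls V (j + 1)).filter fun l => (en x l = x ∧ (es x l).Nodup) ∧ (es x l).toFinset ⊆ A).image
      fun l => (es x l).headD (x, x) := ⟨_, rfl⟩
  have b1 := (congrArg card hB).trans_le (card_biUnion_le.trans (sum_le_sum fun x _ =>
    card_biUnion_le.trans (sum_le_sum fun j _ => card_image_le)))
  simp only [← ite_and, sum_boole, singleton_subset_iff] at hA
  obtain ⟨G, g1, g2⟩ := exists_subset_card_eq (n := 2 * Fintype.card V) (s := ((univ.filter
    fun e : V × V => Q e.1 e.2 ≠ 0).filter (· ∈ A)) \ B) (le_trans (Nat.le_sub_of_add_le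
      ((add_le_add_right b1 _).trans (by exact_mod_cast hA))) (le_card_sdiff _ _))
  refine ⟨G, g2, fun e he => (mem_filter.1 (mem_filter.1 (mem_sdiff.1 (g1 he)).1).1).2,
    fun x l h1 h2 h3 h4 h5 => ?_⟩
  obtain ⟨a, l, rfl⟩ := List.exists_cons_of_ne_nil h1
  refine (mem_sdiff.1 (g1 (h3 _ List.mem_cons_self))).2 (hB ▸ mem_biUnion.2 ⟨x, mem_univ _,
    mem_biUnion.2 ⟨l.length, mem_range.2 h2, mem_image.2 ⟨a :: l, mem_filter.2
      ⟨mem_Ls (a :: l), ⟨h5, h4⟩, fun e he => ?_⟩, rfl⟩⟩⟩)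
  exact (mem_filter.1 (mem_sdiff.1 (g1 (h3 e (List.mem_toFinset.1 he)))).1).2

end Pool.Agent.Work.MP_2695c4_gt.Hedge
end

-- merged part: Pool.Agent.Work.MP_2695c4_gt.Hedge.Space
section
/-!
The union of the double covers with the truncated path metric, and one sheet of it.
-/

namespace Pool.Agent.Work.MP_2695c4_gt.Hedge

open Finset

variable {V : ℕ → Type} (G : ∀ n, Finset (V n × V n)) (s : ∀ n, V n × V n → ZMod 2)

/-- The end of the lift of a walk. -/
def wk (p : Σ n, V n × ZMod 2) (l : List (V p.1 × Bool)) : Σ n, V n × ZMod 2 :=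
  ⟨p.1, (en p.2.1 l, p.2.2 + hl (s p.1) p.2.1 l)⟩

/-- The truncated path distance. -/
noncomputable def dd (p q : Σ n, V n × ZMod 2) : ℕ :=
  sInf {k | k = max p.1 q.1 + 1 ∨
    ∃ l : List (V p.1 × Bool), l.length = k ∧ (∀ e ∈ es p.2.1 l, e ∈ G p.1) ∧ wk s p l = q}

lemma dd_max (p q : Σ n, V n × ZMod 2) : dd G s p q ≤ max p.1 q.1 + 1 := Nat.sInf_le (Or.inl rfl)

lemma dd_len (p : Σ n, V n × ZMod 2) {l : List (V p.1 × Bool)} (h : ∀ e ∈ es p.2.1 l, e ∈ G p.1) :
    dd G s p (wk s p l) ≤ l.length := Nat.sInf_le (Or.inr ⟨l, rfl, h, rfl⟩)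

lemma dd_cases (p q : Σ n, V n × ZMod 2) : dd G s p q = max p.1 q.1 + 1 ∨
    ∃ l : List (V p.1 × Bool), l.length = dd G s p q ∧ (∀ e ∈ es p.2.1 l, e ∈ G p.1) ∧
      wk s p l = q := Nat.sInf_mem (s := {k | k = max p.1 q.1 + 1 ∨ ∃ l : List (V p.1 × Bool),
        l.length = k ∧ (∀ e ∈ es p.2.1 l, e ∈ G p.1) ∧ wk s p l = q}) ⟨_, Or.inl rfl⟩

lemma dd_comm (p q : Σ n, V n × ZMod 2) : dd G s q p ≤ dd G s p q := by
  rcases dd_cases G s p q with h | ⟨l, h1, h2, rfl⟩
  · rw [h, max_comm]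
    exact dd_max G s q p
  · obtain ⟨l', h3, h4, h5⟩ := exists_rev p.2.1 l
    have e : wk s (wk s p l) l' = p := by
      simp only [wk, hl, h4, h5, List.map_reverse, List.sum_reverse, CharTwo.add_cancel_right]
    have := dd_len G s (wk s p l) (l := l') fun e he => h2 e (List.mem_reverse.1 (h5 ▸ he))
    rw [e] at this
    exact this.trans_eq (h3.trans h1)

lemma dd_tri (p q r : Σ n, V n × ZMod 2) : dd G s p r ≤ dd G s p q + dd G s q r := by
  have h := dd_max G s p r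
  rcases dd_cases G s q r with h3 | ⟨l', h3, h4, rfl⟩ <;>
    rcases dd_cases G s p q with h1 | ⟨l, h1, h2, rfl⟩
  · omega
  · exact (h.trans_eq h3.symm).trans le_add_self
  · exact (h.trans_eq h1.symm).trans le_self_add
  · change List (V p.1 × Bool) at l'
    have e : wk s p (l ++ l') = wk s (wk s p l) l' := by
      simp only [wk, hl, en_append, es_append, List.map_append, List.sum_append, add_assoc]
    have := dd_len G s p (l := l ++ l') fun e he =>
      (List.mem_append.1 (es_append _ l l' ▸ he)).elim (h2 e) (h4 e)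
    rw [e, List.length_append, h1] at this
    exact this.trans_eq (congrArg _ h3)

/-- The metric space of the double covers. -/
@[reducible] noncomputable def cover : MetricSpace (Σ n, V n × ZMod 2) where
  dist p q := (dd G s p q : ℝ)
  dist_self p := Nat.cast_eq_zero.2 (Nat.le_zero.1 (by
    simpa [wk, hl, en, es] using dd_len G s p (l := []) (by simp [es])))
  dist_comm p q := congrArg _ (le_antisymm (dd_comm G s q p) (dd_comm G s p q))
  dist_triangle p q r := by exact_mod_cast dd_tri G s p q r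
  eq_of_dist_eq_zero {p q} h := by
    rcases dd_cases G s p q with h' | ⟨l, h1, -, rfl⟩
    · have := Nat.cast_eq_zero.1 h
      omega
    · obtain rfl := List.length_eq_zero_iff.1 (h1.trans (Nat.cast_eq_zero.1 h))
      simp [wk, hl, en, es]

/-- One sheet of the double covers with the induced metric. -/
@[reducible] noncomputable def sheet : MetricSpace (Σ n, V n) :=
  MetricSpace.induced (fun p => (⟨p.1, (p.2, 0)⟩ : Σ n, V n × ZMod 2))
    (by rintro ⟨m, x⟩ ⟨n, y⟩ h; cases h; rfl) (cover G s)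

lemma dd_edge (n : ℕ) (e : G n) (a : ZMod 2) :
    dd G s ⟨n, (e.1.1, a)⟩ ⟨n, (e.1.2, a + s n e)⟩ ≤ 1 := by
  simpa [wk, hl, es, en, ed] using
    dd_len G s ⟨n, (e.1.1, a)⟩ (l := [(e.1.2, true)]) (by simp [es, ed])

lemma dd_deck {n : ℕ} (h2 : NoCyc (G n) (n + 1)) (y : V n) :
    n + 1 ≤ dd G s ⟨n, (y, 0)⟩ ⟨n, (y, 1)⟩ := by
  have h := dd_max G s ⟨n, (y, 0)⟩ ⟨n, (y, 1)⟩
  rcases dd_cases G s ⟨n, (y, 0)⟩ ⟨n, (y, 1)⟩ with h4 | ⟨l, h4, h5, h6⟩
  · rw [h4, max_self]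
  · have h7 := Prod.mk.inj (sigma_mk_injective (β := fun n => V n × ZMod 2) (i := n) h6)
    rw [hl_eq_zero h2 _ (h4.trans_le (by simpa using h)) h5 h7.1] at h7
    exact (zero_ne_one ((add_zero _).symm.trans h7.2)).elim

universe u

lemma sheet_not_ce [∀ n, Fintype (V n)] [∀ n, Nonempty (V n)] [∀ n, DecidableEq (V n)]
    (h1 : ∀ n, (G n).card = 2 * Fintype.card (V n)) (h2 : ∀ n, NoCyc (G n) (n + 1))
    (h3 : ∀ n (τ : V n → ZMod 2), Fintype.card (V n) ≤
      8 * (univ.filter fun e : G n => s n e ≠ τ e.1.1 + τ e.1.2).card)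
    (h4 : ∀ n x (e : G n), e.1.1 = x ∨ e.1.2 = x →
      ∃ e : G n, s n e = 1 ∧ (e.1.1 = x ∨ e.1.2 = x)) :
    ¬ @CoarselyEmbedsInHilbert.{u} _ (sheet G s) := by
  let := sheet G s
  rintro ⟨H, _, _, _, g, ρm, ρp, hρ, hg⟩
  have hB : (0 : ℝ) < 2 * ∑ i ∈ range 4, (ρp i : ℝ) + 1 := by positivity
  obtain ⟨t, ht⟩ := Filter.eventually_atTop.1
    (hρ.eventually_ge_atTop (512 * (2 * ∑ i ∈ range 4, (ρp i : ℝ) + 1)).toNNReal)
  obtain ⟨m, hn⟩ := exists_nat_ge (t : ℝ)
  obtain ⟨n, hm⟩ : ∃ n, n = m + 1 := ⟨_, rfl⟩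
  have hs : ∀ x : ZMod 2, x = 0 ∨ x = 1 := by decide
  have e0 : ∀ x (e : G n), e.1.1 = x ∨ e.1.2 = x →
      ∀ a, ∃ y, dd G s ⟨n, (x, a)⟩ ⟨n, (y, 0)⟩ ≤ 1 := fun x e he a => by
    rcases hs a with rfl | rfl
    · exact ⟨x, (Nat.cast_eq_zero.1 ((cover G s).dist_self _)).trans_le zero_le_one⟩
    obtain ⟨e, h5, rfl | rfl⟩ := h4 n x e he
    · exact ⟨_, by simpa only [h5, CharTwo.add_self_eq_zero] using dd_edge G s n e 1⟩
    · exact ⟨_, (dd_comm G s _ _).trans (by simpa only [h5, zero_add] using dd_edge G s n e 0)⟩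
  have e1 : ∀ x : {x // ∀ a, ∃ y, dd G s ⟨n, (x, a)⟩ ⟨n, (y, 0)⟩ ≤ 1}, ∀ a,
    ∃ y, dd G s ⟨n, (x, a)⟩ ⟨n, (y, 0)⟩ ≤ 1 := Subtype.property
  choose ν hν using e1
  have e1 : ∀ (e : G n) (a : ZMod 2), ‖g ⟨n, ν ⟨_, e0 _ e (Or.inl rfl)⟩ a⟩ -
      g ⟨n, ν ⟨_, e0 _ e (Or.inr rfl)⟩ (a + s n e)⟩‖ ≤ ∑ i ∈ range 4, (ρp i : ℝ) := fun e a => by
    have h := (dd_tri G s _ _ _).trans (add_le_add ((dd_tri G s _ _ _).trans (add_le_add
      ((dd_comm G s _ _).trans (hν ⟨_, e0 _ e (Or.inl rfl)⟩ a)) (dd_edge G s n e a)))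
      (hν ⟨_, e0 _ e (Or.inr rfl)⟩ _))
    refine le_trans (NNReal.coe_le_coe.2 (hg _ _).2) (le_of_eq_of_le (congrArg (fun r => (ρp r : ℝ))
      (NNReal.eq rfl)) (single_le_sum (f := fun i : ℕ => (ρp i : ℝ)) (fun _ _ => by positivity)
        (mem_range.2 (Nat.lt_succ_of_le h))))
  obtain ⟨τ, hτ⟩ := rounding (E := G n) (fun e => ⟨_, e0 _ e (Or.inl rfl)⟩)
    (fun e => ⟨_, e0 _ e (Or.inr rfl)⟩) (fun e => s n e)
    (fun y => g ⟨n, ν y 0⟩ - g ⟨n, ν y 1⟩) hB (fun y => by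
      refine Real.toNNReal_le_iff_le_coe.1 ((ht _ ?_).trans (hg ⟨n, ν y 0⟩ ⟨n, ν y 1⟩).1)
      refine NNReal.coe_le_coe.1 (hn.trans (Nat.cast_le.2 ?_ : (m : ℝ) ≤ dd G s _ _))
      have := (dd_deck G s (h2 n) y).trans ((dd_tri G s _ _ _).trans (add_le_add
        ((dd_tri G s _ ⟨n, (ν y 0, 0)⟩ ⟨n, (ν y 1, 0)⟩).trans (add_le_add_left (hν y 0) _))
        ((dd_comm G s _ _).trans (hν y 1))))
      dsimp only
      omega) (fun e => by
      have h0 := e1 e 0
      have h4 := e1 e 1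
      refine le_trans (le_of_eq_of_le (congrArg _ ?_) (norm_sub_le_of_le h0 h4)) (by linarith)
      rcases hs (s n e) with hs | hs <;> simp only [hs, sgn, CharTwo.add_self_eq_zero, add_zero,
        zero_add, if_true, one_ne_zero, if_false, one_smul, neg_smul] <;> abel)
  have h4 := h3 n (Function.extend Subtype.val τ 0)
  have h5 : Fintype.card (V n) ≠ 0 := Fintype.card_ne_zero
  rw [Fintype.card_coe, h1] at hτ
  simp only [← Subtype.val_injective.extend_apply τ 0] at hτ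
  omega

variable {Y : Type} [MetricSpace Y] {r : ℝ} {F : ℕ → Finset Y}

lemma dd_near (G : ∀ n, Finset (F n × F n)) (s : ∀ n, F n × F n → ZMod 2) (hr : 0 ≤ r)
    (hG : ∀ n, ∀ e ∈ G n, dist e.1 e.2 ≤ r) {p q : Σ n, F n × ZMod 2} {ρ : ℝ}
    (h : (dd G s p q : ℝ) ≤ ρ) :
    (p.1 ≤ ⌈ρ⌉₊ ∧ q.1 ≤ ⌈ρ⌉₊) ∨ dist (p.2.1 : Y) q.2.1 ≤ ρ * r := by
  rcases dd_cases G s p q with h1 | ⟨l, h1, h2, rfl⟩
  · have := Nat.cast_le.1 (h.trans (Nat.le_ceil ρ))
    omega
  · exact Or.inr ((dist_en (hG _) _ l h2).trans (mul_le_mul_of_nonneg_right (h1 ▸ h) hr))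

lemma sheet_maps (hY : UnifLocFinite Y) (G : ∀ n, Finset (F n × F n)) (s : ∀ n, F n × F n → ZMod 2)
    (hr : 0 ≤ r) (hG : ∀ n, ∀ e ∈ G n, dist e.1 e.2 ≤ r)
    (hF : Function.Injective fun p : Σ n, F n => (p.2 : Y)) :
    @UnifLocFinite _ (sheet G s) ∧ @IsCoarseMap _ Y (sheet G s) _ fun p => p.2 := by
  let := sheet G s
  have f := finite_level (W := fun n => F n)
  refine ⟨fun ρ hρ => ?_, fun ρ hρ => ?_⟩
  · obtain ⟨N, hN⟩ := hY (ρ * r + 1) (by positivity)
    refine ⟨{p : Σ n, F n | p.1 ≤ ⌈ρ⌉₊}.ncard + N, fun p => ?_⟩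
    refine (Set.encard_le_encard (t := {p : Σ n, F n | p.1 ≤ ⌈ρ⌉₊} ∪ (fun p => (p.2 : Y)) ⁻¹'
      Metric.closedBall (p.2 : Y) (ρ * r + 1)) fun q hq => (dd_near G s hr hG
        (p := ⟨q.1, (q.2, 0)⟩) (q := ⟨p.1, (p.2, 0)⟩) hq).imp And.left fun h => h.trans
          (le_add_of_nonneg_right zero_le_one)).trans ((Set.encard_union_le _ _).trans ?_)
    rw [Nat.cast_add, (f _).cast_ncard_eq]
    exact add_le_add_right ((Set.encard_le_encard_of_injOn (Set.mapsTo_preimage _ _)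
      hF.injOn).trans (hN _)) _
  · obtain ⟨C, hC⟩ := Metric.isBounded_iff.1 ((f ⌈ρ⌉₊).image fun p => (p.2 : Y)).isBounded
    refine ⟨|C| + ρ * r + 1, by positivity, fun p q h => ?_⟩
    rcases dd_near G s hr hG (p := ⟨p.1, (p.2, 0)⟩) (q := ⟨q.1, (q.2, 0)⟩) h with h | h
    · linarith [hC ⟨p, h.1, rfl⟩ ⟨q, h.2, rfl⟩, le_abs_self C, mul_nonneg hρ.le hr]
    · linarith [abs_nonneg C]

end Pool.Agent.Work.MP_2695c4_gt.Hedge
end

-- merged part: Pool.Agent.Work.MP_2695c4_gt.Hedge.Level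
section
/-!
A space without property A receives an injective coarse map from a space that does not embed.
-/

namespace Pool.Agent.Work.MP_2695c4_gt.Hedge

open Finset
open scoped Classical

variable {Y : Type} [MetricSpace Y]

lemma levels (hY : UnifLocFinite Y) (h : ¬ PropertyA Y) : ∃ r ≥ (0 : ℝ), ∀ (U : Finset Y) (g : ℕ),
    ∃ F : Finset Y, Disjoint F U ∧ F.Nonempty ∧ ∃ G : Finset (F × F),
      G.card = 2 * Fintype.card F ∧ (∀ e ∈ G, dist e.1 e.2 ≤ r) ∧ NoCyc G (g + 1) := by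
  obtain ⟨R, hR, ε, hε, h⟩ : ∃ R > 0, ∃ ε > 0, ∀ S, ¬ HF R ε S (Set.univ : Set Y) := by
    simpa only [not_forall, not_exists, exists_prop] using mt (propA_of_hf hY) h
  obtain ⟨N, N1, hN⟩ := deg_bound hY R
  obtain ⟨k, hk⟩ := exists_pow_lt_of_lt_one (x := ((1 : ℝ) / 24) ^ 2)
    (y := max (1 - (ε / 4 / N) ^ 2 / 16) 0) (by norm_num)
    (max_lt (sub_lt_self _ (by positivity)) one_pos)
  refine ⟨k * R, by positivity, fun U g => ?_⟩
  obtain ⟨F, h1, h2, h3⟩ : ∃ F : Finset Y, ↑F ⊆ (↑U : Set Y)ᶜ ∧ F.Nonempty ∧ ∀ x0, ∀ E ⊆ F,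
      E.Nonempty → (∀ x ∈ E, dist x x0 ≤ (k * (g + 1) : ℕ) * R) →
        ε / 2 * E.card < 2 * bd R E (F \ E) := by
    by_contra hc
    obtain ⟨S, hS⟩ := hf_compl hY hR.le (half_pos hε) (greedy (S := (k * (g + 1) : ℕ) * R)
      (A := (↑U : Set Y)ᶜ) fun F h1 h2 => by_contra fun e => hc ⟨F, h1, h2,
        fun x0 E a b c => not_le.1 fun d => e ⟨x0, E, a, b, c, d⟩⟩)
    exact h S (by rwa [mul_div_cancel₀ _ two_ne_zero] at hS)
  have := h2.to_subtype
  have hx : ∀ (x0 : F) (E : Finset F), (∀ x ∈ E, dist x x0 ≤ (k * (g + 1) : ℕ) * R) →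
      ε / 4 * E.card ≤ bd R E Eᶜ := fun x0 E hE => by
    rcases E.eq_empty_or_nonempty with rfl | hne
    · simp [bd]
    have e := h3 x0 (E.map (.subtype _)) (fun x hx => property_of_mem_map_subtype E hx) hne.map
      (forall_mem_map.2 hE)
    rw [show F \ E.map (.subtype _) = Eᶜ.map (.subtype _) by
      ext x; by_cases hx : x ∈ F <;> simp [hx], card_map, bd, sum_map] at e
    simp only [sum_map] at e
    exact le_of_lt (lt_of_mul_lt_mul_left (lt_of_eq_of_lt (by ring) e) two_pos.le)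
  obtain ⟨Q, q1, q2, q3, q4⟩ := heat (V := F) hR.le (one_pos.trans_le N1)
    (show 0 ≤ ε / 4 by positivity) (fun x => (sum_coe_sort F fun y =>
      if dist (x : Y) y ≤ R then (1 : ℝ) else 0).trans_le (hN x F)) hx
    (le_max_right _ _) (le_max_left _ _) hk.le le_rfl
  obtain ⟨G, g1, g2, g3⟩ := sparse q1 q2 g.succ_pos q4
  exact ⟨F, disjoint_left.2 fun x hx => h1 hx, h2, G, g1, fun e he => q3 _ _ (g2 e he), g3⟩

lemma signing {V : Type} [Fintype V] [Nonempty V] [DecidableEq V] {G : Finset (V × V)} {g : ℕ}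
    (h1 : G.card = 2 * Fintype.card V) (h2 : NoCyc G (g + 1)) : ∃ s : V × V → ZMod 2,
      (∀ τ : V → ZMod 2, Fintype.card V ≤
        8 * (univ.filter fun e : G => s e ≠ τ e.1.1 + τ e.1.2).card) ∧
      ∀ x (e : G), e.1.1 = x ∨ e.1.2 = x → ∃ e : G, s e = 1 ∧ (e.1.1 = x ∨ e.1.2 = x) := by
  obtain ⟨s, hs⟩ := exists_frustrated (V := V) (E := G) (fun e => e.1.1) (fun e => e.1.2)
    ((Fintype.card_coe _).trans h1)
  obtain ⟨σ, -, hσ⟩ := exists_max_image univ (fun τ : V → ZMod 2 =>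
    (univ.filter fun e : G => s e + (τ e.1.1 + τ e.1.2) = 1).card) univ_nonempty
  have z : ∀ a b c d e : ZMod 2, a + (b + c) ≠ d + e ↔ a ≠ b + d + (c + e) := by decide
  refine ⟨fun e => Function.extend Subtype.val s 0 e + (σ e.1 + σ e.2), fun τ => ?_,
    fun x e he => by_contra fun hc => (hσ (σ + Pi.single x 1) (mem_univ _)).not_gt
      (card_lt_card ((ssubset_iff_of_subset fun a ha => ?_).2 ⟨e, ?_, fun ha => ?_⟩))⟩
  · simpa only [Subtype.val_injective.extend_apply, z, Pi.add_apply] using hs (σ + τ)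
  · have := fun h => hc ⟨a, by simpa only [Subtype.val_injective.extend_apply] using
      (mem_filter.1 ha).2, h⟩
    simpa [Pi.single_apply, mt Or.inl this, mt Or.inr this] using ha
  · have h3 : s e + (σ e.1.1 + σ e.1.2) ≠ 1 := fun h => hc
      ⟨e, by simpa only [Subtype.val_injective.extend_apply] using h, he⟩
    have h4 : e.1.2 ≠ e.1.1 := h2 e.1.1 [(e.1.2, true)] (by simp) (by simp) (by simp [es, ed])
      (by simp [es])
    have z : ∀ a b c : ZMod 2, a + (b + c) ≠ 1 →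
      a + (b + 1 + c) = 1 ∧ a + (b + (c + 1)) = 1 := by decide
    rcases he with rfl | rfl <;> simp [h4, h4.symm, z _ _ _ h3]
  · exact hc ⟨e, by simpa only [Subtype.val_injective.extend_apply] using (mem_filter.1 ha).2, he⟩

universe u

theorem exists_bad (hY : UnifLocFinite Y) (h : ¬ PropertyA Y) :
    ∃ (X : Type) (_ : MetricSpace X) (f : X → Y), UnifLocFinite X ∧ IsCoarseMap f ∧
      Function.Injective f ∧ ¬ CoarselyEmbedsInHilbert.{u} X := by
  obtain ⟨r, hr, h⟩ := levels hY h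
  choose Φ h1 h2 G h3 h4 h5 using h
  obtain ⟨U, hU⟩ : ∃ U : ℕ → Finset Y, ∀ n, U (n + 1) = U n ∪ Φ (U n) n :=
    ⟨fun n => n.rec ∅ fun n W => W ∪ Φ W n, fun _ => rfl⟩
  have m : Monotone U := monotone_nat_of_le_succ fun n => hU n ▸ subset_union_left
  have d : ∀ a b, a < b → ∀ y ∈ Φ (U a) a, y ∉ Φ (U b) b := fun a b e y ha hb =>
    disjoint_left.1 (h1 _ b) hb (m (Nat.succ_le_of_lt e) (hU a ▸ mem_union_right _ ha))
  have := fun n => (h2 (U n) n).to_subtype
  choose s s1 s2 using fun n => signing (h3 (U n) n) (h5 _ n)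
  have i : Function.Injective fun p : Σ n, Φ (U n) n => (p.2 : Y) := by
    rintro ⟨a, x, hx⟩ ⟨b, y, hy⟩ rfl
    obtain rfl := le_antisymm (not_lt.1 fun e => d b a e x hy hx) (not_lt.1 fun e => d a b e x hx hy)
    rfl
  obtain ⟨c1, c2⟩ := sheet_maps (F := fun n => Φ (U n) n) hY (fun n => G (U n) n) s hr
    (fun n => h4 _ n) i
  exact ⟨_, _, _, c1, c2, i, sheet_not_ce _ _ (fun n => h3 _ n) (fun n => h5 _ n) s1 s2⟩

end Pool.Agent.Work.MP_2695c4_gt.Hedge
end
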